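import Mathlib

set_option autoImplicit false

/-!
# Algebra for the two ellipse problem
-/

open Complex Finset
open scoped ComplexConjugate

namespace Pool.Agent.Zk69.BE

/-- complete homogeneous sum of degree `n - 1` -/
noncomputable def D (n : ℕ) (x y : ℂ) : ℂ := ∑ i ∈ range n, x ^ i * y ^ (n - 1 - i)

theorem D_mul (n : ℕ) (x y : ℂ) : (x - y) * D n x y = x ^ n - y ^ n := by
  have := (Commute.all x y).geom_sum₂_mul n
  rw [mul_comm]
  exact this

theorem D_succ (n : ℕ) (x y : ℂ) : D (n + 1) x y = x ^ n + y * D n x y := by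
  unfold D
  rw [Finset.sum_range_succ, mul_sum]
  simp only [Nat.add_sub_cancel, Nat.sub_self, pow_zero, mul_one]
  rw [add_comm]
  congr 1
  refine sum_congr rfl fun i hi => ?_
  have h1 := mem_range.1 hi
  have h2 : n - i = (n - 1 - i) + 1 := by omega
  rw [h2, pow_succ]
  ring

theorem D_cont (n : ℕ) : Continuous fun p : ℂ × ℂ => D n p.1 p.2 := by
  unfold D
  fun_prop

/-- real version of the sum of squares -/
noncomputable def S (n : ℕ) (r : ℝ) : ℝ := ∑ i ∈ range n, (r ^ i) ^ 2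

theorem S_mul (n : ℕ) (r : ℝ) : (1 - r ^ 2) * S n r = 1 - (r ^ n) ^ 2 := by
  have h := geom_sum_mul (r ^ 2) n
  have h2 : S n r = ∑ i ∈ range n, (r ^ 2) ^ i := by
    unfold S
    exact sum_congr rfl fun i _ => by rw [← pow_mul, ← pow_mul, mul_comm]
  rw [h2, ← pow_mul, mul_comm n 2, pow_mul]
  linarith

theorem D_norm (n : ℕ) (x y : ℂ) : ‖D n x y‖ ≤ ∑ i ∈ range n, ‖x‖ ^ i * ‖y‖ ^ (n - 1 - i) := by
  unfold D
  refine (norm_sum_le _ _).trans (le_of_eq ?_)
  exact sum_congr rfl fun i _ => by rw [norm_mul, norm_pow, norm_pow]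

/-- strict Cauchy-Schwarz -/
theorem cs_strict {n : ℕ} (hn : 2 ≤ n) {r s : ℝ} (hr0 : 0 ≤ r) (hr : r < 1) (hs0 : 0 ≤ s)
    (hs : s < 1) :
    (∑ i ∈ range n, r ^ i * s ^ (n - 1 - i)) ^ 2 < S n r * S n s := by
  have hrefl : S n s = ∑ i ∈ range n, (s ^ (n - 1 - i)) ^ 2 := by
    unfold S
    rw [← Finset.sum_range_reflect]
  set T := ∑ i ∈ range n, r ^ i * s ^ (n - 1 - i) with hT
  have key : ∀ t : ℝ, 0 < ∑ i ∈ range n, (r ^ i - t * s ^ (n - 1 - i)) ^ 2 := by
    intro t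
    have hnn : ∀ i ∈ range n, 0 ≤ (r ^ i - t * s ^ (n - 1 - i)) ^ 2 := fun i _ => sq_nonneg _
    rcases eq_or_lt_of_le (sum_nonneg hnn) with h | h
    · exfalso
      have hz := (sum_eq_zero_iff_of_nonneg hnn).1 h.symm
      have h0 := hz 0 (mem_range.2 (by omega))
      have h1 := hz (n - 1) (mem_range.2 (by omega))
      simp only [pow_zero, Nat.sub_zero, Nat.sub_self, mul_one] at h0 h1
      have h0' : 1 - t * s ^ (n - 1) = 0 := by
        exact pow_eq_zero_iff (two_ne_zero) |>.1 h0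
      have h1' : r ^ (n - 1) - t = 0 := pow_eq_zero_iff (two_ne_zero) |>.1 h1
      have ht : t = r ^ (n - 1) := by linarith
      have hrn : r ^ (n - 1) < 1 := pow_lt_one₀ hr0 hr (by omega)
      have hsn : s ^ (n - 1) < 1 := pow_lt_one₀ hs0 hs (by omega)
      have hrn0 : 0 ≤ r ^ (n - 1) := by positivity
      have hsn0 : 0 ≤ s ^ (n - 1) := by positivity
      rw [ht] at h0'
      nlinarith
    · exact h
  have hexp : ∀ t : ℝ, ∑ i ∈ range n, (r ^ i - t * s ^ (n - 1 - i)) ^ 2 =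
      S n r - 2 * t * T + t ^ 2 * S n s := by
    intro t
    rw [hT, hrefl, S, mul_sum, mul_sum, ← sum_sub_distrib, ← sum_add_distrib]
    exact sum_congr rfl fun i _ => by ring
  have hS : 0 < S n s := by
    have hge : (s ^ 0) ^ 2 ≤ S n s := by
      unfold S
      exact single_le_sum (f := fun i => (s ^ i) ^ 2) (fun i _ => sq_nonneg _)
        (mem_range.2 (by omega))
    simp at hge
    linarith
  have := key (T / S n s)
  rw [hexp] at this
  have h3 : S n r - 2 * (T / S n s) * T + (T / S n s) ^ 2 * S n s =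
      (S n r * S n s - T ^ 2) / S n s := by
    field_simp
    ring
  rw [h3] at this
  have h4 := (div_pos_iff_of_pos_right hS).1 this
  linarith

theorem norm_id (a b k : ℂ) : ‖a + b * k‖ ^ 2 - ‖conj a * k + conj b‖ ^ 2 =
    (‖a‖ ^ 2 - ‖b‖ ^ 2) * (1 - ‖k‖ ^ 2) := by
  simp only [← Complex.normSq_eq_norm_sq, Complex.normSq_apply]
  simp
  ring

/-- the case `n ≥ 2` of the final algebraic step -/
theorem endgame {n : ℕ} (hn : 2 ≤ n) {a b k l : ℂ} (hk : ‖k‖ < 1) (hl : ‖l‖ < 1)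
    (E1 : a + b * k + conj b * k ^ n + conj a * k ^ (n + 1) = 0)
    (E2 : b + conj b * D n k l + conj a * D (n + 1) k l = 0) : a = 0 ∧ b = 0 := by
  have E3 : a + b * l + conj b * l ^ n + conj a * l ^ (n + 1) = 0 := by
    have h1 := D_mul n k l
    have h2 := D_mul (n + 1) k l
    linear_combination E1 - (k - l) * E2 + conj b * h1 + conj a * h2
  have hx : ∀ p : ℂ, a + b * p + conj b * p ^ n + conj a * p ^ (n + 1) = 0 →
      ‖a + b * p‖ = ‖p‖ ^ n * ‖conj a * p + conj b‖ := by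
    intro p hp
    have : a + b * p = -(p ^ n * (conj a * p + conj b)) := by
      rw [pow_succ] at hp
      linear_combination hp
    rw [this, norm_neg, norm_mul, norm_pow]
  have hk1 := hx k E1
  have hl1 := hx l E3
  have idk := norm_id a b k
  have idl := norm_id a b l
  have hkn : ‖k‖ ^ n < 1 := pow_lt_one₀ (norm_nonneg _) hk (by omega)
  have hkn0 : 0 ≤ ‖k‖ ^ n := by positivity
  have hk2 : ‖k‖ ^ 2 < 1 := pow_lt_one₀ (norm_nonneg _) hk (by omega)
  by_cases hab : ‖b‖ ≤ ‖a‖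
  · -- easy case
    have h1 : ‖conj a * k + conj b‖ ^ 2 ≤ ‖a + b * k‖ ^ 2 := by
      have : 0 ≤ (‖a‖ ^ 2 - ‖b‖ ^ 2) * (1 - ‖k‖ ^ 2) := by
        refine mul_nonneg ?_ (by linarith)
        have := pow_le_pow_left₀ (norm_nonneg b) hab 2
        linarith
      linarith
    have h2 : ‖conj a * k + conj b‖ ≤ ‖a + b * k‖ := by
      exact (pow_le_pow_iff_left₀ (norm_nonneg _) (norm_nonneg _) two_ne_zero).1 h1
    have h3 : ‖a + b * k‖ = 0 := by
      have h4 : ‖a + b * k‖ ≤ ‖k‖ ^ n * ‖a + b * k‖ := by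
        rw [hk1] at h2 ⊢
        nlinarith [norm_nonneg (conj a * k + conj b)]
      nlinarith [norm_nonneg (a + b * k)]
    have h5 : a = -(b * k) := by
      have := norm_eq_zero.1 h3
      linear_combination this
    have h6 : ‖a‖ = ‖b‖ * ‖k‖ := by rw [h5, norm_neg, norm_mul]
    have hb : ‖b‖ = 0 := by
      by_contra hb
      have : 0 < ‖b‖ := lt_of_le_of_ne (norm_nonneg _) (Ne.symm hb)
      nlinarith
    have hb' : b = 0 := norm_eq_zero.1 hb
    exact ⟨by rw [h5, hb']; simp, hb'⟩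
  · exfalso
    push Not at hab
    set x := conj a * k + conj b with hxd
    set y := conj a * l + conj b with hyd
    set Q := ‖b‖ ^ 2 - ‖a‖ ^ 2 with hQ
    have hQpos : 0 < Q := by
      have := pow_lt_pow_left₀ hab (norm_nonneg a) two_ne_zero
      rw [hQ]
      linarith
    have hSx : ‖x‖ ^ 2 * S n ‖k‖ = Q := by
      have h1 := S_mul n ‖k‖
      rw [hk1, mul_pow] at idk
      have h2 : (1 - ‖k‖ ^ 2) * (‖x‖ ^ 2 * S n ‖k‖) = (1 - ‖k‖ ^ 2) * Q := by
        rw [hQ]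
        linear_combination (‖x‖ ^ 2) * h1 - idk
      exact mul_left_cancel₀ (by linarith) h2
    have hSy : ‖y‖ ^ 2 * S n ‖l‖ = Q := by
      have hl2 : ‖l‖ ^ 2 < 1 := pow_lt_one₀ (norm_nonneg _) hl (by omega)
      have h1 := S_mul n ‖l‖
      rw [hl1, mul_pow] at idl
      have h2 : (1 - ‖l‖ ^ 2) * (‖y‖ ^ 2 * S n ‖l‖) = (1 - ‖l‖ ^ 2) * Q := by
        rw [hQ]
        linear_combination (‖y‖ ^ 2) * h1 - idl
      exact mul_left_cancel₀ (by linarith) h2
    have hprod : x * y * D n k l = a * conj a - b * conj b := by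
      have h1 := D_succ n k l
      rw [h1] at E2
      rw [hxd, hyd]
      linear_combination (conj a * k + conj b) * E2 - conj a * E1
    have hnorm : ‖x‖ * ‖y‖ * ‖D n k l‖ = Q := by
      rw [← norm_mul, ← norm_mul, hprod, mul_conj, mul_conj, ← ofReal_sub, norm_real,
        Complex.normSq_eq_norm_sq, Complex.normSq_eq_norm_sq, Real.norm_eq_abs, abs_of_neg]
      · rw [hQ]; ring
      · rw [hQ] at hQpos
        linarith
    have hD : ‖D n k l‖ ^ 2 < S n ‖k‖ * S n ‖l‖ := by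
      refine lt_of_le_of_lt ?_ (cs_strict hn (norm_nonneg k) hk (norm_nonneg l) hl)
      exact pow_le_pow_left₀ (norm_nonneg _) (D_norm n k l) 2
    have hx0 : 0 < ‖x‖ ^ 2 := by
      by_contra h
      have : ‖x‖ ^ 2 = 0 := le_antisymm (not_lt.1 h) (sq_nonneg _)
      rw [this, zero_mul] at hSx
      linarith
    have hy0 : 0 < ‖y‖ ^ 2 := by
      by_contra h
      have : ‖y‖ ^ 2 = 0 := le_antisymm (not_lt.1 h) (sq_nonneg _)
      rw [this, zero_mul] at hSy
      linarith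
    have h1 : Q ^ 2 = (‖x‖ ^ 2 * ‖y‖ ^ 2) * ‖D n k l‖ ^ 2 := by rw [← hnorm]; ring
    have h2 : Q ^ 2 = (‖x‖ ^ 2 * ‖y‖ ^ 2) * (S n ‖k‖ * S n ‖l‖) := by
      calc Q ^ 2 = Q * Q := sq Q
        _ = (‖x‖ ^ 2 * S n ‖k‖) * (‖y‖ ^ 2 * S n ‖l‖) := by rw [hSx, hSy]
        _ = _ := by ring
    have h3 : (‖x‖ ^ 2 * ‖y‖ ^ 2) * ‖D n k l‖ ^ 2 < (‖x‖ ^ 2 * ‖y‖ ^ 2) * (S n ‖k‖ * S n ‖l‖) :=
      mul_lt_mul_of_pos_left hD (by positivity)
    linarith

/-- the case `n = 1` -/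
theorem endgame1 {a b k l : ℂ} (hk : ‖k‖ < 1) (hl : ‖l‖ < 1)
    (E1 : a + b * k + conj b * k + conj a * k ^ 2 = 0)
    (E2 : b + conj b + conj a * (k + l) = 0) : a = 0 ∧ b + conj b = 0 := by
  have h1 : a = conj a * (k * l) := by linear_combination E1 - k * E2
  have h2 : ‖a‖ = ‖a‖ * (‖k‖ * ‖l‖) := by
    conv_lhs => rw [h1]
    rw [norm_mul, norm_mul, RCLike.norm_conj]
  have h3 : ‖k‖ * ‖l‖ < 1 := by nlinarith [norm_nonneg k, norm_nonneg l]
  have h4 : ‖a‖ = 0 := by nlinarith [norm_nonneg a]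
  have h5 : a = 0 := norm_eq_zero.1 h4
  refine ⟨h5, ?_⟩
  rw [h5] at E2
  simpa using E2

/-- the case `n = 0` -/
theorem endgame0 {c k : ℂ} (hk : ‖k‖ < 1) (E1 : c + conj c * k = 0) : c = 0 := by
  have h1 : c = -(conj c * k) := by linear_combination E1
  have h2 : ‖c‖ = ‖c‖ * ‖k‖ := by
    conv_lhs => rw [h1]
    rw [norm_neg, norm_mul, RCLike.norm_conj]
  have h4 : ‖c‖ = 0 := by nlinarith [norm_nonneg c]
  exact norm_eq_zero.1 h4

end Pool.Agent.Zk69.BE
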