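import Pool.Agent.Zk69.BE1

set_option autoImplicit false

/-!
# Two families of points tending to infinity: the polynomial case
-/

open Complex Finset Filter Topology
open scoped ComplexConjugate

namespace Pool.Agent.Zk69.BE

/-- the homogeneous part of degree `n + 1` -/
noncomputable def L (n : ℕ) (a b z w : ℂ) : ℂ :=
  b * z ^ n * w + conj b * w ^ n * z + a * z ^ (n + 1) + conj a * w ^ (n + 1)

/-- divided difference -/
noncomputable def M (n : ℕ) (a b x y : ℂ) : ℂ :=
  b + conj b * D n x y + conj a * D (n + 1) x y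

theorem L_scale (n : ℕ) (a b k x : ℂ) : L n a b k (k * x) = k ^ (n + 1) * L n a b 1 x := by
  unfold L
  rw [mul_pow, mul_pow, one_pow, one_pow]
  ring

theorem L_sub (n : ℕ) (a b x y : ℂ) : L n a b 1 x - L n a b 1 y = (x - y) * M n a b x y := by
  unfold L M
  have h1 := D_mul n x y
  have h2 := D_mul (n + 1) x y
  simp only [one_pow]
  linear_combination -conj b * h1 - conj a * h2

theorem L_cont (n : ℕ) (a b : ℂ) : Continuous fun x : ℂ => L n a b 1 x := by
  unfold L
  fun_prop

theorem M_cont (n : ℕ) (a b : ℂ) : Continuous fun p : ℂ × ℂ => M n a b p.1 p.2 := by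
  unfold M
  have h1 := D_cont n
  have h2 := D_cont (n + 1)
  fun_prop

theorem L_tend (n : ℕ) (a b : ℂ) {x : ℕ → ℂ} {κ : ℂ} (hx : Tendsto x atTop (𝓝 κ)) :
    Tendsto (fun k => L n a b 1 (x k)) atTop (𝓝 (L n a b 1 κ)) :=
  ((L_cont n a b).tendsto κ).comp hx

theorem M_tend (n : ℕ) (a b : ℂ) {x y : ℕ → ℂ} {κ l : ℂ} (hx : Tendsto x atTop (𝓝 κ))
    (hy : Tendsto y atTop (𝓝 l)) :
    Tendsto (fun k => M n a b (x k) (y k)) atTop (𝓝 (M n a b κ l)) := by
  have h1 : Tendsto (fun k => (x k, y k)) atTop (𝓝 (κ, l)) := hx.prodMk_nhds hy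
  have h2 : Tendsto (fun p : ℂ × ℂ => M n a b p.1 p.2) (𝓝 (κ, l)) (𝓝 (M n a b κ l)) :=
    (M_cont n a b).continuousAt
  have h3 := Tendsto.comp h2 h1
  exact h3

theorem top_limit {m : ℕ} {c : ℕ → ℕ → ℂ} {γ : ℕ → ℂ}
    (hc : ∀ j ≤ m, Tendsto (c j) atTop (𝓝 (γ j)))
    (h : ∀ᶠ k : ℕ in atTop, ∑ j ∈ range (m + 1), (k : ℂ) ^ j * c j k = 0) : γ m = 0 := by
  have h1 : ∀ j ∈ range m, Tendsto (fun k : ℕ => ((k : ℂ)⁻¹) ^ (m - j) * c j k) atTop
      (𝓝 0) := by
    intro j hj
    have hj' := mem_range.1 hj
    have h2 : Tendsto (fun k : ℕ => ((k : ℂ)⁻¹) ^ (m - j)) atTop (𝓝 (0 ^ (m - j))) :=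
      (tendsto_inv_atTop_nhds_zero_nat (𝕜 := ℂ)).pow (m - j)
    have h3 := h2.mul (hc j hj'.le)
    rwa [zero_pow (by omega), zero_mul] at h3
  have h2 : Tendsto (fun k : ℕ => ∑ j ∈ range m, ((k : ℂ)⁻¹) ^ (m - j) * c j k) atTop
      (𝓝 (∑ j ∈ range m, 0)) := tendsto_finsetSum _ h1
  rw [sum_const_zero] at h2
  have h3 := h2.add (hc m le_rfl)
  rw [zero_add] at h3
  refine tendsto_nhds_unique (h3.congr' ?_) tendsto_const_nhds
  filter_upwards [h, eventually_gt_atTop 0] with k hk hk0
  have hk1 : (k : ℂ) ≠ 0 := by exact_mod_cast hk0.ne'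
  rw [sum_range_succ] at hk
  have h4 : ∑ j ∈ range m, ((k : ℂ)⁻¹) ^ (m - j) * c j k =
      ((k : ℂ) ^ m)⁻¹ * ∑ j ∈ range m, (k : ℂ) ^ j * c j k := by
    rw [mul_sum]
    refine sum_congr rfl fun j hj => ?_
    have hj' := mem_range.1 hj
    have h5 : (k : ℂ) ^ m = (k : ℂ) ^ (m - j) * (k : ℂ) ^ j := by
      rw [← pow_add]
      congr 1
      omega
    rw [h5, inv_pow]
    field_simp
  rw [h4]
  have h6 : ∑ j ∈ range m, (k : ℂ) ^ j * c j k = -((k : ℂ) ^ m * c m k) := by
    linear_combination hk
  rw [h6]
  have : (k : ℂ) ^ m ≠ 0 := pow_ne_zero _ hk1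
  field_simp
  ring

/-- the polynomial -/
noncomputable def V (N : ℕ) (F G : ℕ → ℂ) (z w : ℂ) : ℂ :=
  (G 0 + conj (G 0)) + ∑ n ∈ range N, L n (G (n + 1)) (F n) z w

theorem all_zero {N : ℕ} {F G : ℕ → ℂ} {x y : ℕ → ℂ} {κ l : ℂ} (hκ : ‖κ‖ < 1) (hl : ‖l‖ < 1)
    (hx : Tendsto x atTop (𝓝 κ)) (hy : Tendsto y atTop (𝓝 l))
    (hne : ∀ᶠ k in atTop, x k ≠ y k)
    (hVx : ∀ᶠ k : ℕ in atTop, V N F G k (k * x k) = 0)
    (hVy : ∀ᶠ k : ℕ in atTop, V N F G k (k * y k) = 0) (z w : ℂ) : V N F G z w = 0 := by
  have step : ∀ i ≤ N, ∀ n < N, N - i ≤ n → ∀ z w, L n (G (n + 1)) (F n) z w = 0 := by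
    intro i
    induction i with
    | zero =>
      intro _ n hn hn2
      omega
    | succ i ih =>
      intro hi n hn hn2 
      by_cases hn3 : N - i ≤ n
      · exact ih (by omega) n hn hn3
      have hnm : n = N - (i + 1) := by omega
      have hz := ih (by omega)
      -- truncated sums
      have trunc : ∀ z w, V N F G z w =
          (G 0 + conj (G 0)) + ∑ j ∈ range (n + 1), L j (G (j + 1)) (F j) z w := by
        intro z w
        unfold V
        congr 1
        symm
        refine sum_subset (fun j hj => mem_range.2 (by have := mem_range.1 hj; omega)) ?_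
        intro j hj hj2
        refine hz j (mem_range.1 hj) ?_ z w
        have h9 : ¬ j < n + 1 := fun h => hj2 (mem_range.2 h)
        omega
      have E1 : L n (G (n + 1)) (F n) 1 κ = 0 := by
        refine top_limit (m := n + 1)
          (c := fun j k => if j = 0 then G 0 + conj (G 0) else L (j - 1) (G j) (F (j - 1)) 1 (x k))
          (γ := fun j => if j = 0 then G 0 + conj (G 0) else L (j - 1) (G j) (F (j - 1)) 1 κ)
          ?_ ?_
        · intro j _
          rcases j with _ | j
          · simp
          · simp only [Nat.add_eq_zero_iff, one_ne_zero, and_false, if_false, Nat.add_sub_cancel]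
            exact L_tend j (G (j + 1)) (F j) hx
        · filter_upwards [hVx] with k hk
          rw [trunc] at hk
          rw [sum_range_succ', ← hk, add_comm]
          simp [L_scale]
      have E2 : M n (G (n + 1)) (F n) κ l = 0 := by
        refine top_limit (m := n + 1)
          (c := fun j k => if j = 0 then 0 else M (j - 1) (G j) (F (j - 1)) (x k) (y k))
          (γ := fun j => if j = 0 then 0 else M (j - 1) (G j) (F (j - 1)) κ l)
          ?_ ?_
        · intro j _
          rcases j with _ | j
          · simp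
          · simp only [Nat.add_eq_zero_iff, one_ne_zero, and_false, if_false, Nat.add_sub_cancel]
            exact M_tend j (G (j + 1)) (F j) hx hy
        · filter_upwards [hVx, hVy, hne] with k hk hk2 hk3
          rw [trunc] at hk hk2
          have hsub : x k - y k ≠ 0 := sub_ne_zero.2 hk3
          refine mul_left_cancel₀ hsub ?_
          rw [sum_range_succ', mul_zero]
          simp only [if_true, mul_zero, add_zero]
          rw [mul_sum]
          have h7 : ∑ j ∈ range (n + 1), (L j (G (j + 1)) (F j) k (k * x k) -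
              L j (G (j + 1)) (F j) k (k * y k)) = 0 := by
            rw [sum_sub_distrib]
            linear_combination hk - hk2
          rw [← h7]
          simp only [Nat.add_eq_zero_iff, one_ne_zero, and_false, if_false, Nat.add_sub_cancel]
          refine sum_congr rfl fun j _ => ?_
          rw [L_scale, L_scale, ← mul_sub, L_sub]
          ring
      intro z w
      rcases n with _ | _ | n
      · have h1 : (G 1 + conj (F 0)) + conj (G 1 + conj (F 0)) * κ = 0 := by
          unfold L at E1
          simp only [zero_add, pow_zero, mul_one, pow_one] at E1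
          simp only [map_add, Complex.conj_conj]
          linear_combination E1
        have h2 := endgame0 hκ h1
        have h3 : conj (G 1 + conj (F 0)) = 0 := by rw [h2, map_zero]
        simp only [map_add, Complex.conj_conj] at h3
        unfold L
        simp only [zero_add, pow_zero, mul_one, pow_one]
        linear_combination z * h2 + w * h3
      · unfold L at E1
        unfold M at E2
        have hD1 : D 1 κ l = 1 := by simp [D]
        have hD2 : D 2 κ l = κ + l := by simp [D, sum_range_succ]; ring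
        simp only [zero_add, one_add_one_eq_two] at E1 E2 
        rw [hD1, hD2] at E2
        obtain ⟨h1, h2⟩ := endgame1 (a := G 2) (b := F 1) hκ hl
          (by linear_combination E1) (by linear_combination E2)
        unfold L
        simp only [zero_add, one_add_one_eq_two]
        rw [h1]
        simp only [map_zero]
        linear_combination (z * w) * h2
      · unfold L at E1
        unfold M at E2
        obtain ⟨h1, h2⟩ := endgame (n := n + 1 + 1) (by omega) (a := G (n + 1 + 1 + 1))
          (b := F (n + 1 + 1)) hκ hl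
          (by linear_combination E1) (by linear_combination E2)
        unfold L
        rw [h1, h2]
        simp
  have hall : ∀ n < N, ∀ z w, L n (G (n + 1)) (F n) z w = 0 := fun n hn =>
    step N le_rfl n hn (by omega)
  have hV : ∀ z w, V N F G z w = G 0 + conj (G 0) := by
    intro z w
    unfold V
    rw [sum_eq_zero fun n hn => hall n (mem_range.1 hn) z w, add_zero]
  obtain ⟨k, hk⟩ := hVx.exists
  rw [hV] at hk ⊢
  exact hk

end Pool.Agent.Zk69.BE
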