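import Pool.Agent.Zk69.BE2

set_option autoImplicit false

/-!
# Complexified ellipses
-/

open Complex Finset Filter Topology
open scoped ComplexConjugate

namespace Pool.Agent.Zk69.BE

/-- the complexification of `2 Re (conj z * f z + g z)` -/
noncomputable def U (f g : ℂ → ℂ) (z w : ℂ) : ℂ :=
  w * f z + z * conj (f (conj w)) + g z + conj (g (conj w))

/-- first coordinate on the complexified ellipse -/
noncomputable def zc (A : ℝ) (κ c t : ℂ) : ℂ := c + A * (t + conj κ / t)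

/-- second coordinate on the complexified ellipse -/
noncomputable def wc (A : ℝ) (κ c t : ℂ) : ℂ := conj c + A * (1 / t + κ * t)

theorem conj_zc {A : ℝ} {κ c t : ℂ} (ht : ‖t‖ = 1) : conj (zc A κ c t) = wc A κ c t := by
  have h1 : conj t = 1 / t := by
    have h2 : t * conj t = 1 := by
      rw [mul_conj, Complex.normSq_eq_norm_sq, ht]; norm_num
    have h3 : t ≠ 0 := by
      intro h
      rw [h] at ht
      simp at ht
    field_simp
    linear_combination h2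
  have h3 : t ≠ 0 := by
    intro h
    rw [h] at ht
    simp at ht
  unfold zc wc
  simp only [map_add, map_mul, map_div₀, conj_ofReal, Complex.conj_conj, h1]
  field_simp

theorem ext {f g : ℂ → ℂ} (hf : Differentiable ℂ f) (hg : Differentiable ℂ g) {A : ℝ} {κ c : ℂ}
    (h : ∀ t : ℂ, ‖t‖ = 1 → U f g (zc A κ c t) (conj (zc A κ c t)) = 0) (t : ℂ) (ht : t ≠ 0) :
    U f g (zc A κ c t) (wc A κ c t) = 0 := by
  have hf' : Differentiable ℂ (fun w => conj (f (conj w))) := fun w =>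
    differentiableAt_conj_conj_iff.2 (hf _)
  have hg' : Differentiable ℂ (fun w => conj (g (conj w))) := fun w =>
    differentiableAt_conj_conj_iff.2 (hg _)
  have hz : ∀ s : ℂ, s ≠ 0 → DifferentiableAt ℂ (zc A κ c) s := by
    intro s hs
    unfold zc
    have : DifferentiableAt ℂ (fun t : ℂ => conj κ / t) s :=
      (differentiableAt_const _).div differentiableAt_id hs
    fun_prop
  have hw : ∀ s : ℂ, s ≠ 0 → DifferentiableAt ℂ (wc A κ c) s := by
    intro s hs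
    unfold wc
    have : DifferentiableAt ℂ (fun t : ℂ => 1 / t) s :=
      (differentiableAt_const _).div differentiableAt_id hs
    fun_prop
  have hd : DifferentiableOn ℂ (fun s => U f g (zc A κ c s) (wc A κ c s)) {0}ᶜ := by
    intro s hs
    have hz1 := hz s hs
    have hw1 := hw s hs
    have e1 := (hf (zc A κ c s)).comp s hz1
    have e2 := (hg (zc A κ c s)).comp s hz1
    have e3 := (hf' (wc A κ c s)).comp s hw1
    have e4 := (hg' (wc A κ c s)).comp s hw1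
    refine DifferentiableAt.differentiableWithinAt ?_
    exact (((hw1.mul e1).add (hz1.mul e3)).add e2).add e4
  have han := hd.analyticOnNhd isOpen_compl_singleton
  have hpre : IsPreconnected ({0}ᶜ : Set ℂ) :=
    (isConnected_compl_singleton_of_one_lt_rank (rank_real_complex ▸ Nat.one_lt_ofNat) _).isPreconnected
  have hfreq : ∃ᶠ s in 𝓝[≠] (1 : ℂ), U f g (zc A κ c s) (wc A κ c s) = 0 := by
    have ht1 : Tendsto (fun θ : ℝ => Complex.exp (θ * I)) (𝓝[>] 0) (𝓝[≠] 1) := by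
      rw [tendsto_nhdsWithin_iff]
      constructor
      · have : Continuous fun θ : ℝ => Complex.exp (θ * I) := by fun_prop
        have h2 := this.tendsto 0
        simp only [ofReal_zero, zero_mul, Complex.exp_zero] at h2
        exact h2.mono_left nhdsWithin_le_nhds
      · have : Set.Ioo (0 : ℝ) Real.pi ∈ 𝓝[>] (0 : ℝ) := Ioo_mem_nhdsGT Real.pi_pos
        filter_upwards [this] with θ hθ
        intro h1
        have h2 : (Complex.exp (θ * I)).im = (1 : ℂ).im := by rw [h1]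
        rw [Complex.exp_ofReal_mul_I_im] at h2
        have := Real.sin_pos_of_pos_of_lt_pi hθ.1 hθ.2
        simp at h2
        linarith
    refine ht1.frequently ?_
    refine Eventually.frequently (Eventually.of_forall fun θ => ?_)
    have hn : ‖Complex.exp (θ * I)‖ = 1 := Complex.norm_exp_ofReal_mul_I θ
    rw [← conj_zc hn]
    exact h _ hn
  exact han.eqOn_zero_of_preconnected_of_frequently_eq_zero hpre (by simp) hfreq ht

/-- a point of the complexified ellipse in the relevant half -/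
def OnC (A : ℝ) (κ c z w : ℂ) : Prop :=
  ∃ t : ℂ, t ≠ 0 ∧ ‖z - c‖ ≤ 2 * A * ‖t‖ ∧ z = zc A κ c t ∧ w = wc A κ c t

theorem exists_onC {A : ℝ} (hA : 0 < A) {κ c z : ℂ} (hz : z ≠ c) : ∃ w, OnC A κ c z w := by
  have hA' : (A : ℂ) ≠ 0 := by exact_mod_cast hA.ne'
  obtain ⟨s, hs⟩ := IsAlgClosed.exists_pow_nat_eq ((z - c) ^ 2 - 4 * A ^ 2 * conj κ) (n := 2)
    (by norm_num)
  have key : ∀ s' : ℂ, s' ^ 2 = (z - c) ^ 2 - 4 * A ^ 2 * conj κ → ‖z - c‖ ≤ ‖(z - c) + s'‖ →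
      ∃ w, OnC A κ c z w := by
    intro s' hs' hn
    have h0 : 0 < ‖z - c‖ := norm_pos_iff.2 (sub_ne_zero.2 hz)
    have hne : (z - c) + s' ≠ 0 := by
      intro h
      rw [h, norm_zero] at hn
      linarith
    set t := ((z - c) + s') / (2 * A) with ht
    have ht0 : t ≠ 0 := div_ne_zero hne (mul_ne_zero two_ne_zero hA')
    refine ⟨wc A κ c t, t, ht0, ?_, ?_, rfl⟩
    · rw [ht, norm_div, norm_mul, Complex.norm_two, Complex.norm_real, Real.norm_eq_abs,
        abs_of_pos hA]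
      field_simp
      exact hn
    · unfold zc
      have hq : A * t ^ 2 - (z - c) * t + A * conj κ = 0 := by
        rw [ht]
        field_simp
        linear_combination hs'
      field_simp
      linear_combination -hq
  by_cases h : ‖z - c‖ ≤ ‖(z - c) + s‖
  · exact key s hs h
  · refine key (-s) (by rw [← hs]; ring) ?_
    push Not at h
    have h1 : ‖(2:ℂ) * (z - c)‖ ≤ ‖(z - c) + s‖ + ‖(z - c) + -s‖ := by
      have : (2:ℂ) * (z - c) = ((z - c) + s) + ((z - c) + -s) := by ring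
      rw [this]
      exact norm_add_le _ _
    rw [norm_mul, Complex.norm_two] at h1
    linarith

theorem onC_form {A : ℝ} {κ c z w t : ℂ} (ht : t ≠ 0) (hz : z = zc A κ c t)
    (hw : w = wc A κ c t) : w = κ * z + (conj c - κ * c) + A * (1 - κ * conj κ) / t := by
  rw [hz, hw]
  unfold zc wc
  field_simp
  ring

theorem one_sub_norm {κ : ℂ} (hκ : ‖κ‖ < 1) : ‖1 - κ * conj κ‖ ≤ 1 := by
  rw [mul_conj, ← ofReal_one, ← ofReal_sub, norm_real, Real.norm_eq_abs,
    Complex.normSq_eq_norm_sq, abs_le]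
  constructor <;> nlinarith [norm_nonneg κ, sq_nonneg ‖κ‖]

theorem err_le {A : ℝ} (hA : 0 < A) {κ c z t : ℂ} (hκ : ‖κ‖ < 1) (ht : t ≠ 0)
    (hn : ‖z - c‖ ≤ 2 * A * ‖t‖) (hz : z ≠ c) :
    ‖A * (1 - κ * conj κ) / t‖ ≤ 2 * A ^ 2 / ‖z - c‖ := by
  have h0 : 0 < ‖z - c‖ := norm_pos_iff.2 (sub_ne_zero.2 hz)
  have ht' : 0 < ‖t‖ := norm_pos_iff.2 ht
  rw [norm_div, norm_mul, norm_real, Real.norm_eq_abs, abs_of_pos hA, div_le_div_iff₀ ht' h0]
  have h1 := one_sub_norm hκ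
  calc A * ‖1 - κ * conj κ‖ * ‖z - c‖ ≤ A * 1 * (2 * A * ‖t‖) := by
        gcongr
    _ = _ := by ring

theorem onC_near {A : ℝ} (hA : 0 < A) {κ c z w : ℂ} (hκ : ‖κ‖ < 1) (hz : 1 ≤ ‖z - c‖)
    (h : OnC A κ c z w) : ‖w - κ * z‖ ≤ 2 * ‖c‖ + 2 * A ^ 2 := by
  obtain ⟨t, ht, hn, hz', hw⟩ := h
  have hne : z ≠ c := by
    intro h
    rw [h, sub_self, norm_zero] at hz
    linarith
  rw [onC_form ht hz' hw]
  have h1 := err_le hA hκ ht hn hne
  have h2 : 2 * A ^ 2 / ‖z - c‖ ≤ 2 * A ^ 2 := div_le_self (by positivity) hz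
  have h3 : κ * z + (conj c - κ * c) + A * (1 - κ * conj κ) / t - κ * z =
      (conj c - κ * c) + A * (1 - κ * conj κ) / t := by ring
  rw [h3]
  refine (norm_add_le _ _).trans ?_
  have h4 : ‖conj c - κ * c‖ ≤ 2 * ‖c‖ := by
    refine (norm_sub_le _ _).trans ?_
    rw [norm_mul, RCLike.norm_conj]
    nlinarith [norm_nonneg c, norm_nonneg κ]
  linarith

theorem conj_sub_inj {κ d : ℂ} (hκ : ‖κ‖ < 1) (h : conj d - κ * d = 0) : d = 0 := by
  have h1 : conj d = κ * d := by linear_combination h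
  have h2 : ‖d‖ = ‖κ‖ * ‖d‖ := by
    rw [← norm_mul, ← h1, RCLike.norm_conj]
  have h3 : ‖d‖ = 0 := by nlinarith [norm_nonneg d]
  exact norm_eq_zero.1 h3

/-- distinct ellipses have no common points far away -/
theorem far {A₁ A₂ : ℝ} (hA₁ : 0 < A₁) (hA₂ : 0 < A₂) {κ₁ κ₂ c₁ c₂ : ℂ} (h₁ : ‖κ₁‖ < 1)
    (h₂ : ‖κ₂‖ < 1) (hne : ¬ (A₁ = A₂ ∧ κ₁ = κ₂ ∧ c₁ = c₂)) :
    ∃ R : ℝ, ∀ z w₁ w₂ : ℂ, R ≤ ‖z‖ → OnC A₁ κ₁ c₁ z w₁ → OnC A₂ κ₂ c₂ z w₂ → w₁ ≠ w₂ := by
  by_cases hκ : κ₁ = κ₂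
  · subst hκ
    by_cases hc : c₁ = c₂
    · subst hc
      have hA : A₁ ≠ A₂ := fun h => hne ⟨h, rfl, rfl⟩
      refine ⟨0, fun z w₁ w₂ _ ⟨t, ht, _, hz, hw⟩ ⟨s, hs, _, hz2, hw2⟩ hww => hA ?_⟩
      have e1 := onC_form ht hz hw
      have e2 := onC_form hs hz2 hw2
      have hk : (1 - κ₁ * conj κ₁) ≠ 0 := by
        rw [mul_conj, ← ofReal_one, ← ofReal_sub]
        have : 1 - Complex.normSq κ₁ ≠ 0 := by
          rw [Complex.normSq_eq_norm_sq]
          nlinarith [norm_nonneg κ₁]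
        exact_mod_cast this
      have hA1' : (A₁ : ℂ) ≠ 0 := by exact_mod_cast hA₁.ne'
      have hA2' : (A₂ : ℂ) ≠ 0 := by exact_mod_cast hA₂.ne'
      have e3 : (A₁ : ℂ) * s = A₂ * t := by
        have h5 : (A₁ : ℂ) * (1 - κ₁ * conj κ₁) / t = A₂ * (1 - κ₁ * conj κ₁) / s := by
          linear_combination hww - e1 + e2
        field_simp at h5
        linear_combination h5
      have e4 : (A₁ : ℂ) * (t + conj κ₁ / t) = A₂ * (s + conj κ₁ / s) := by
        unfold zc at hz hz2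
        linear_combination hz2 - hz
      have e5 : (A₁ : ℂ) / t = A₂ / s := by
        field_simp
        linear_combination e3
      have e6 : (A₁ : ℂ) * t = A₂ * s := by
        have h6 : (A₁ : ℂ) * (t + conj κ₁ / t) = A₁ * t + conj κ₁ * (A₁ / t) := by ring
        have h7 : (A₂ : ℂ) * (s + conj κ₁ / s) = A₂ * s + conj κ₁ * (A₂ / s) := by ring
        rw [h6, h7, e5] at e4
        linear_combination e4
      have e7 : (A₁ : ℂ) ^ 2 = A₂ ^ 2 := by
        have h8 : ((A₁ : ℂ) ^ 2 - A₂ ^ 2) * (s * t) = 0 := by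
          linear_combination (A₁ * t) * e3 + (A₂ * t) * e6 
        rcases mul_eq_zero.1 h8 with h9 | h9
        · linear_combination h9
        · exact absurd h9 (mul_ne_zero hs ht)
      have e8 : A₁ ^ 2 = A₂ ^ 2 := by exact_mod_cast e7
      exact (pow_left_inj₀ hA₁.le hA₂.le two_ne_zero).1 e8
    · set d := (conj c₁ - κ₁ * c₁) - (conj c₂ - κ₁ * c₂) with hd
      have hd0 : d ≠ 0 := by
        intro h
        have h1 : conj (c₁ - c₂) - κ₁ * (c₁ - c₂) = 0 := by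
          rw [map_sub]
          rw [hd] at h
          linear_combination h
        exact hc (sub_eq_zero.1 (conj_sub_inj h₁ h1))
      have hdn : 0 < ‖d‖ := norm_pos_iff.2 hd0
      set B := 2 * A₁ ^ 2 + 2 * A₂ ^ 2 with hB
      refine ⟨‖c₁‖ + ‖c₂‖ + 1 + 2 * B / ‖d‖, fun z w₁ w₂ hz ⟨t, ht, hn, hz1, hw⟩
        ⟨s, hs, hn2, hz2, hw2⟩ hww => ?_⟩
      have hBp : 0 < B := by positivity
      have hq : 0 < 2 * B / ‖d‖ := by positivity
      have hb1 : 1 + 2 * B / ‖d‖ ≤ ‖z - c₁‖ := by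
        have := norm_sub_norm_le z c₁
        linarith [norm_nonneg c₂]
      have hb2 : 1 + 2 * B / ‖d‖ ≤ ‖z - c₂‖ := by
        have := norm_sub_norm_le z c₂
        linarith [norm_nonneg c₁]
      have hz1' : z ≠ c₁ := by
        intro h
        rw [h, sub_self, norm_zero] at hb1
        linarith
      have hz2' : z ≠ c₂ := by
        intro h
        rw [h, sub_self, norm_zero] at hb2
        linarith
      have e1 := onC_form ht hz1 hw
      have e2 := onC_form hs hz2 hw2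
      have f1 := err_le hA₁ h₁ ht hn hz1'
      have f2 := err_le hA₂ h₁ hs hn2 hz2'
      have e3 : d = A₂ * (1 - κ₁ * conj κ₁) / s - A₁ * (1 - κ₁ * conj κ₁) / t := by
        rw [hd]
        linear_combination hww - e1 + e2
      have g1 : 2 * A₁ ^ 2 / ‖z - c₁‖ ≤ A₁ ^ 2 * ‖d‖ / B := by
        rw [div_le_div_iff₀ (by linarith) hBp]
        have : 2 * B / ‖d‖ ≤ ‖z - c₁‖ := by linarith
        have h8 : 2 * B ≤ ‖z - c₁‖ * ‖d‖ := (div_le_iff₀ hdn).1 this
        nlinarith [sq_nonneg A₁]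
      have g2 : 2 * A₂ ^ 2 / ‖z - c₂‖ ≤ A₂ ^ 2 * ‖d‖ / B := by
        rw [div_le_div_iff₀ (by linarith) hBp]
        have : 2 * B / ‖d‖ ≤ ‖z - c₂‖ := by linarith
        have h8 : 2 * B ≤ ‖z - c₂‖ * ‖d‖ := (div_le_iff₀ hdn).1 this
        nlinarith [sq_nonneg A₂]
      have e4 : ‖d‖ ≤ A₂ ^ 2 * ‖d‖ / B + A₁ ^ 2 * ‖d‖ / B := by
        calc ‖d‖ = _ := congrArg norm e3
          _ ≤ _ := norm_sub_le _ _
          _ ≤ _ := by linarith
      have e5 : A₂ ^ 2 * ‖d‖ / B + A₁ ^ 2 * ‖d‖ / B = ‖d‖ / 2 := by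
        rw [hB]
        field_simp
        ring
      rw [e5] at e4
      linarith
  · have hk : 0 < ‖κ₁ - κ₂‖ := norm_pos_iff.2 (sub_ne_zero.2 hκ)
    set B := (2 * ‖c₁‖ + 2 * A₁ ^ 2) + (2 * ‖c₂‖ + 2 * A₂ ^ 2) with hB
    refine ⟨‖c₁‖ + ‖c₂‖ + 1 + (B + 1) / ‖κ₁ - κ₂‖, fun z w₁ w₂ hz g1 g2 hww => ?_⟩
    have hBp : 0 ≤ B := by positivity
    have hq : 0 < (B + 1) / ‖κ₁ - κ₂‖ := by positivity
    have hb1 : 1 ≤ ‖z - c₁‖ := by
      have := norm_sub_norm_le z c₁
      linarith [norm_nonneg c₂]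
    have hb2 : 1 ≤ ‖z - c₂‖ := by
      have := norm_sub_norm_le z c₂
      linarith [norm_nonneg c₁]
    have e1 := onC_near hA₁ h₁ hb1 g1
    have e2 := onC_near hA₂ h₂ hb2 g2
    have e3 : (κ₁ - κ₂) * z = (w₂ - κ₂ * z) - (w₁ - κ₁ * z) := by
      rw [hww]
      ring
    have e4 : ‖κ₁ - κ₂‖ * ‖z‖ ≤ B := by
      rw [← norm_mul, e3]
      refine (norm_sub_le _ _).trans ?_
      linarith
    have e5 : (B + 1) / ‖κ₁ - κ₂‖ ≤ ‖z‖ := by linarith [norm_nonneg c₁, norm_nonneg c₂]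
    have e6 := (div_le_iff₀ hk).1 e5
    linarith

end Pool.Agent.Zk69.BE
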