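import Pool.Agent.Zk69.BE3

set_option autoImplicit false

/-!
# Growth
-/

open Complex Finset Filter Topology Metric
open scoped ComplexConjugate Nat

namespace Pool.Agent.Zk69.BE

/-- an entire function of polynomial growth on a geometric sequence of discs is a polynomial -/
theorem poly_of_growth {h : ℂ → ℂ} (hh : Differentiable ℂ h) {R lam N K : ℝ} (hR : 0 < R)
    (hlam : 1 < lam) (hK : 0 < K)
    (hb : ∀ n : ℕ, ∀ z : ℂ, ‖z‖ ≤ R * lam ^ n → ‖h z‖ ≤ N * K ^ n) :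
    ∃ j₀ : ℕ, ∃ c : ℕ → ℂ, ∀ m, j₀ ≤ m → ∀ z, h z = ∑ j ∈ range m, c j * z ^ j := by
  obtain ⟨j₀, hj₀⟩ := pow_unbounded_of_one_lt K hlam
  refine ⟨j₀, fun j => ((j ! : ℂ))⁻¹ * iteratedDeriv j h 0, fun m hm z => ?_⟩
  rw [← Complex.taylorSeries_eq_of_entire' 0 z hh]
  have hzero : ∀ j, j₀ ≤ j → iteratedDeriv j h 0 = 0 := by
    intro j hj
    have hlj : K < lam ^ j := hj₀.trans_le (pow_le_pow_right₀ hlam.le hj)
    have hest : ∀ n : ℕ, ‖iteratedDeriv j h 0‖ ≤ (j ! * N / R ^ j) * (K / lam ^ j) ^ n := by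
      intro n
      have hlp : 0 < lam ^ n := by positivity
      have h1 := Complex.norm_iteratedDeriv_le_of_forall_mem_sphere_norm_le (c := 0)
        (R := R * lam ^ n) (C := N * K ^ n) j (mul_pos hR hlp) hh.diffContOnCl
        (fun z hz => hb n z (by
          rw [mem_sphere_zero_iff_norm] at hz
          exact hz.le))
      refine h1.trans (le_of_eq ?_)
      rw [div_pow, mul_pow, ← pow_mul, ← pow_mul, mul_comm n j]
      field_simp
    have hlim : Tendsto (fun n : ℕ => (j ! * N / R ^ j) * (K / lam ^ j) ^ n) atTop (𝓝 0) := by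
      have hlp : 0 < lam ^ j := by positivity
      have h2 := (tendsto_pow_atTop_nhds_zero_of_lt_one (r := K / lam ^ j) (by positivity)
        ((div_lt_one hlp).2 hlj)).const_mul (j ! * N / R ^ j)
      rwa [mul_zero] at h2
    have h3 := ge_of_tendsto hlim (Eventually.of_forall hest)
    exact norm_le_zero_iff.1 h3
  rw [tsum_eq_sum (s := range m)]
  · simp
  · intro j hj
    rw [hzero j (hm.trans (not_lt.1 fun h => hj (mem_range.2 h)))]
    simp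

/-- the bound -/
def Bd (f g : ℂ → ℂ) (r N : ℝ) : Prop := ∀ z : ℂ, ‖z‖ ≤ r → r * ‖f z‖ ≤ N ∧ ‖g z‖ ≤ N

theorem deriv_le {h : ℂ → ℂ} (hh : Differentiable ℂ h) {r s B : ℝ} (hs : s < r)
    (hB : ∀ z : ℂ, ‖z‖ ≤ r → ‖h z‖ ≤ B) {z w : ℂ} (hz : ‖z‖ ≤ s) (hw : ‖w‖ ≤ s) :
    ‖h z - h w‖ ≤ B / (r - s) * ‖z - w‖ := by
  have h1 : ∀ x ∈ closedBall (0 : ℂ) s, ‖deriv h x‖ ≤ B / (r - s) := by
    intro x hx
    rw [mem_closedBall_zero_iff] at hx
    refine Complex.norm_deriv_le_of_forall_mem_sphere_norm_le (by linarith) hh.diffContOnCl ?_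
    intro y hy
    refine hB y ?_
    rw [mem_sphere_iff_norm] at hy
    calc ‖y‖ = ‖(y - x) + x‖ := by ring_nf
      _ ≤ _ := norm_add_le _ _
      _ ≤ r := by linarith
  exact (convex_closedBall (0 : ℂ) s).norm_image_sub_le_of_norm_deriv_le
    (fun x _ => hh x) h1 (by simpa using hw) (by simpa using hz)

theorem step {f g : ℂ → ℂ} (hf : Differentiable ℂ f) (hg : Differentiable ℂ g) {ρ C R₀ : ℝ}
    (hρ0 : 0 ≤ ρ) (hρ : ρ < 1) (hC : 0 ≤ C)
    (hpts : ∀ z : ℂ, R₀ ≤ ‖z‖ → ∃ w₁ w₂ : ℂ, w₁ ≠ w₂ ∧ U f g z w₁ = 0 ∧ U f g z w₂ = 0 ∧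
      ‖w₁‖ ≤ ρ * ‖z‖ + C ∧ ‖w₂‖ ≤ ρ * ‖z‖ + C) :
    ∃ lam K R₁ : ℝ, 1 < lam ∧ 0 < K ∧ 1 ≤ R₁ ∧ ∀ r N : ℝ, R₁ ≤ r → Bd f g r N →
      Bd f g (lam * r) (K * N) := by
  set lam := 2 / (1 + ρ) with hlam
  have hlam1 : 1 < lam := by
    rw [hlam, lt_div_iff₀ (by linarith)]
    linarith
  have hlr : ρ * lam < 1 := by
    rw [hlam, mul_div_assoc', div_lt_one (by linarith)]
    linarith
  set σ := (1 + ρ * lam) / 2 with hσ
  have hσ1 : σ < 1 := by rw [hσ]; linarith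
  have hσ0 : ρ * lam < σ := by rw [hσ]; linarith
  set δ := σ - ρ * lam with hδ
  have hδ0 : 0 < δ := by rw [hδ]; linarith
  set K := lam * (lam + 1) / (1 - σ) + lam + 1 with hK
  have h1σ : 0 < 1 - σ := by linarith
  have hKpos : 0 < K := by
    have : 0 < lam * (lam + 1) / (1 - σ) := by positivity
    rw [hK]
    linarith
  refine ⟨lam, K, max (max 1 R₀) (C / δ), hlam1, hKpos, (le_max_left _ _).trans (le_max_left _ _), ?_⟩
  intro r N hr hbd z hz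
  have hr1 : 1 ≤ r := ((le_max_left _ _).trans (le_max_left _ _)).trans hr
  have hr2 : R₀ ≤ r := ((le_max_right _ _).trans (le_max_left _ _)).trans hr
  have hr3 : C ≤ δ * r := by
    have := (le_max_right _ _).trans hr
    rw [div_le_iff₀ hδ0] at this
    linarith
  have hN0 : 0 ≤ N := (norm_nonneg _).trans (hbd 0 (by rw [norm_zero]; linarith)).2
  by_cases hzr : ‖z‖ ≤ r
  · obtain ⟨h1, h2⟩ := hbd z hzr
    have hKl : lam ≤ K := by
      have : 0 < lam * (lam + 1) / (1 - σ) := by positivity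
      rw [hK]
      linarith
    constructor
    · calc lam * r * ‖f z‖ = lam * (r * ‖f z‖) := by ring
        _ ≤ lam * N := by gcongr
        _ ≤ K * N := by gcongr
    · calc ‖g z‖ ≤ N := h2
        _ = 1 * N := (one_mul N).symm
        _ ≤ K * N := by
          have : 1 ≤ K := hlam1.le.trans hKl
          gcongr
  push Not at hzr
  obtain ⟨w₁, w₂, hww, hU1, hU2, hw1, hw2⟩ := hpts z (hr2.trans hzr.le)
  have hball : ∀ w : ℂ, ‖w‖ ≤ ρ * ‖z‖ + C → ‖conj w‖ ≤ σ * r := by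
    intro w hw
    rw [RCLike.norm_conj]
    calc ‖w‖ ≤ ρ * ‖z‖ + C := hw
      _ ≤ ρ * (lam * r) + δ * r := by gcongr
      _ = σ * r := by rw [hδ]; ring
  have hσr : σ * r < r := by nlinarith
  have hfB : ∀ z : ℂ, ‖z‖ ≤ r → ‖f z‖ ≤ N / r := by
    intro z hz
    rw [le_div_iff₀ (by linarith)]
    linarith [(hbd z hz).1]
  have d1 := deriv_le hf hσr hfB (hball w₁ hw1) (hball w₂ hw2)
  have d2 := deriv_le hg hσr (fun z hz => (hbd z hz).2) (hball w₁ hw1) (hball w₂ hw2)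
  have hcw : ‖conj w₁ - conj w₂‖ = ‖w₁ - w₂‖ := by rw [← map_sub, RCLike.norm_conj]
  rw [hcw] at d1 d2
  have hwp : 0 < ‖w₁ - w₂‖ := norm_pos_iff.2 (sub_ne_zero.2 hww)
  have hfz : ‖f z‖ ≤ (lam + 1) * N / ((1 - σ) * r) := by
    have e1 : (w₁ - w₂) * f z = -(z * conj (f (conj w₁) - f (conj w₂)) +
        conj (g (conj w₁) - g (conj w₂))) := by
      unfold U at hU1 hU2
      rw [map_sub, map_sub]
      linear_combination hU1 - hU2
    have e2 : ‖w₁ - w₂‖ * ‖f z‖ ≤ ‖z‖ * (N / r / (r - σ * r) * ‖w₁ - w₂‖) +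
        N / (r - σ * r) * ‖w₁ - w₂‖ := by
      rw [← norm_mul, e1, norm_neg]
      refine (norm_add_le _ _).trans ?_
      rw [norm_mul, RCLike.norm_conj, RCLike.norm_conj]
      gcongr
    have e3 : ‖f z‖ ≤ ‖z‖ * (N / r / (r - σ * r)) + N / (r - σ * r) := by
      have : ‖w₁ - w₂‖ * ‖f z‖ ≤ ‖w₁ - w₂‖ * (‖z‖ * (N / r / (r - σ * r)) + N / (r - σ * r)) := by
        linarith
      exact le_of_mul_le_mul_left this hwp
    have hrσ : 0 < r - σ * r := by linarith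
    calc ‖f z‖ ≤ ‖z‖ * (N / r / (r - σ * r)) + N / (r - σ * r) := e3
      _ ≤ (lam * r) * (N / r / (r - σ * r)) + N / (r - σ * r) := by gcongr
      _ = (lam + 1) * N / ((1 - σ) * r) := by
        have h1 : r ≠ 0 := by linarith
        have h2 : 1 - σ ≠ 0 := h1σ.ne'
        have h3 : r - σ * r = (1 - σ) * r := by ring
        rw [h3]
        field_simp
  have hrf : r * ‖f z‖ ≤ (lam + 1) * N / (1 - σ) := by
    calc r * ‖f z‖ ≤ r * ((lam + 1) * N / ((1 - σ) * r)) := by gcongr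
      _ = _ := by
        have h1 : r ≠ 0 := by linarith
        field_simp
  constructor
  · calc lam * r * ‖f z‖ = lam * (r * ‖f z‖) := by ring
      _ ≤ lam * ((lam + 1) * N / (1 - σ)) := by gcongr
      _ = lam * (lam + 1) / (1 - σ) * N := by ring
      _ ≤ K * N := by
        have : lam * (lam + 1) / (1 - σ) ≤ K := by rw [hK]; linarith
        gcongr
  · have hc1 : ‖conj w₁‖ ≤ r := (hball w₁ hw1).trans hσr.le
    obtain ⟨b1, b2⟩ := hbd _ hc1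
    have hw1r : ‖w₁‖ ≤ r := by rwa [RCLike.norm_conj] at hc1
    have e1 : g z = -(w₁ * f z + z * conj (f (conj w₁)) + conj (g (conj w₁))) := by
      unfold U at hU1
      linear_combination hU1
    calc ‖g z‖ = ‖w₁ * f z + z * conj (f (conj w₁)) + conj (g (conj w₁))‖ := by
          rw [e1, norm_neg]
      _ ≤ ‖w₁ * f z‖ + ‖z * conj (f (conj w₁))‖ + ‖conj (g (conj w₁))‖ := norm_add₃_le
      _ = ‖w₁‖ * ‖f z‖ + ‖z‖ * ‖f (conj w₁)‖ + ‖g (conj w₁)‖ := by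
          rw [norm_mul, norm_mul, RCLike.norm_conj, RCLike.norm_conj]
      _ ≤ r * ‖f z‖ + (lam * r) * ‖f (conj w₁)‖ + N := by gcongr
      _ = r * ‖f z‖ + lam * (r * ‖f (conj w₁)‖) + N := by ring
      _ ≤ (lam + 1) * N / (1 - σ) + lam * N + N := by gcongr
      _ ≤ K * N := by
          have h3 : (lam + 1) * N / (1 - σ) ≤ lam * ((lam + 1) * N / (1 - σ)) := by
            have : 0 ≤ (lam + 1) * N / (1 - σ) := by positivity
            nlinarith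
          have h4 : K * N = lam * ((lam + 1) * N / (1 - σ)) + lam * N + N := by
            rw [hK]
            ring
          linarith

theorem growth {f g : ℂ → ℂ} (hf : Differentiable ℂ f) (hg : Differentiable ℂ g) {ρ C R₀ : ℝ}
    (hρ0 : 0 ≤ ρ) (hρ : ρ < 1) (hC : 0 ≤ C)
    (hpts : ∀ z : ℂ, R₀ ≤ ‖z‖ → ∃ w₁ w₂ : ℂ, w₁ ≠ w₂ ∧ U f g z w₁ = 0 ∧ U f g z w₂ = 0 ∧
      ‖w₁‖ ≤ ρ * ‖z‖ + C ∧ ‖w₂‖ ≤ ρ * ‖z‖ + C) :
    ∃ N : ℕ, ∃ F G : ℕ → ℂ, ∀ z w, U f g z w = V N F G z w := by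
  obtain ⟨lam, K, R₁, hlam, hK, hR1, hstep⟩ := step hf hg hρ0 hρ hC hpts
  -- start
  obtain ⟨B1, hB1⟩ := (isCompact_closedBall (0 : ℂ) R₁).exists_bound_of_continuousOn
    hf.continuous.continuousOn
  obtain ⟨B2, hB2⟩ := (isCompact_closedBall (0 : ℂ) R₁).exists_bound_of_continuousOn
    hg.continuous.continuousOn
  have hstart : Bd f g R₁ (max (R₁ * B1) B2) := by
    intro z hz
    have hz' : z ∈ closedBall (0 : ℂ) R₁ := by simpa using hz
    exact ⟨(mul_le_mul_of_nonneg_left (hB1 z hz') (by linarith)).trans (le_max_left _ _),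
      (hB2 z hz').trans (le_max_right _ _)⟩
  set N₀ := max (R₁ * B1) B2 with hN₀
  have hall : ∀ n : ℕ, Bd f g (R₁ * lam ^ n) (N₀ * K ^ n) := by
    intro n
    induction n with
    | zero => simpa using hstart
    | succ n ih =>
      have h1 : R₁ ≤ R₁ * lam ^ n := by
        have : 1 ≤ lam ^ n := one_le_pow₀ hlam.le
        nlinarith
      have := hstep _ _ h1 ih
      rw [pow_succ, pow_succ]
      convert this using 1 <;> ring
  have hR0 : 0 < R₁ := by linarith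
  have hfg : ∀ n : ℕ, ∀ z : ℂ, ‖z‖ ≤ R₁ * lam ^ n → ‖f z‖ ≤ N₀ * K ^ n := by
    intro n z hz
    have h1 : 1 ≤ R₁ * lam ^ n := by
      have : 1 ≤ lam ^ n := one_le_pow₀ hlam.le
      nlinarith
    have h2 := (hall n z hz).1
    nlinarith [norm_nonneg (f z)]
  obtain ⟨j1, F, hF⟩ := poly_of_growth hf hR0 hlam hK hfg
  obtain ⟨j2, G, hG⟩ := poly_of_growth hg hR0 hlam hK (fun n z hz => (hall n z hz).2)
  refine ⟨max j1 j2, F, G, fun z w => ?_⟩
  have hF' := hF (max j1 j2) (le_max_left _ _)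
  have hG' := hG (max j1 j2 + 1) ((le_max_right _ _).trans (Nat.le_succ _))
  set m := max j1 j2
  unfold U V L
  rw [hF' z, hF' (conj w), hG' z, hG' (conj w), map_sum, map_sum, sum_range_succ', sum_range_succ']
  simp only [map_mul, map_pow, Complex.conj_conj, pow_zero, mul_one, sum_add_distrib, mul_sum]
  rw [show (∑ x ∈ range m, F x * z ^ x * w) = ∑ i ∈ range m, w * (F i * z ^ i) from
    sum_congr rfl fun i _ => by ring]
  rw [show (∑ x ∈ range m, conj (F x) * w ^ x * z) = ∑ i ∈ range m, z * (conj (F i) * w ^ i) from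
    sum_congr rfl fun i _ => by ring]
  ring

/-- the main step -/
theorem main {f g : ℂ → ℂ} (hf : Differentiable ℂ f) (hg : Differentiable ℂ g)
    {A₁ A₂ : ℝ} (hA₁ : 0 < A₁) (hA₂ : 0 < A₂) {κ₁ κ₂ c₁ c₂ : ℂ} (h₁ : ‖κ₁‖ < 1)
    (h₂ : ‖κ₂‖ < 1) (hne : ¬ (A₁ = A₂ ∧ κ₁ = κ₂ ∧ c₁ = c₂))
    (hU1 : ∀ t : ℂ, ‖t‖ = 1 → U f g (zc A₁ κ₁ c₁ t) (conj (zc A₁ κ₁ c₁ t)) = 0)
    (hU2 : ∀ t : ℂ, ‖t‖ = 1 → U f g (zc A₂ κ₂ c₂ t) (conj (zc A₂ κ₂ c₂ t)) = 0) (z w : ℂ) :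
    U f g z w = 0 := by
  obtain ⟨R, hR⟩ := far hA₁ hA₂ h₁ h₂ hne
  set R₀ := max R (‖c₁‖ + ‖c₂‖ + 1) with hR₀
  set C := (2 * ‖c₁‖ + 2 * A₁ ^ 2) + (2 * ‖c₂‖ + 2 * A₂ ^ 2) with hC
  have hC0 : 0 ≤ C := by positivity
  have pts : ∀ z : ℂ, R₀ ≤ ‖z‖ → ∃ w₁ w₂ : ℂ, w₁ ≠ w₂ ∧ U f g z w₁ = 0 ∧ U f g z w₂ = 0 ∧
      ‖w₁ - κ₁ * z‖ ≤ C ∧ ‖w₂ - κ₂ * z‖ ≤ C := by
    intro z hz
    have hz1 : R ≤ ‖z‖ := (le_max_left _ _).trans hz
    have hz2 : ‖c₁‖ + ‖c₂‖ + 1 ≤ ‖z‖ := (le_max_right _ _).trans hz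
    have hb1 : 1 ≤ ‖z - c₁‖ := by
      have := norm_sub_norm_le z c₁
      linarith [norm_nonneg c₂]
    have hb2 : 1 ≤ ‖z - c₂‖ := by
      have := norm_sub_norm_le z c₂
      linarith [norm_nonneg c₁]
    have hzc1 : z ≠ c₁ := by
      intro h
      rw [h, sub_self, norm_zero] at hb1
      linarith
    have hzc2 : z ≠ c₂ := by
      intro h
      rw [h, sub_self, norm_zero] at hb2
      linarith
    obtain ⟨w₁, hw1⟩ := exists_onC hA₁ (κ := κ₁) hzc1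
    obtain ⟨w₂, hw2⟩ := exists_onC hA₂ (κ := κ₂) hzc2
    have n1 := onC_near hA₁ h₁ hb1 hw1
    have n2 := onC_near hA₂ h₂ hb2 hw2
    refine ⟨w₁, w₂, hR z w₁ w₂ hz1 hw1 hw2, ?_, ?_, n1.trans ?_, n2.trans ?_⟩
    · obtain ⟨t, ht, _, e1, e2⟩ := hw1
      rw [e1, e2]
      exact ext hf hg hU1 t ht
    · obtain ⟨t, ht, _, e1, e2⟩ := hw2
      rw [e1, e2]
      exact ext hf hg hU2 t ht
    · rw [hC]
      have : 0 ≤ 2 * ‖c₂‖ + 2 * A₂ ^ 2 := by positivity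
      linarith
    · rw [hC]
      have : 0 ≤ 2 * ‖c₁‖ + 2 * A₁ ^ 2 := by positivity
      linarith
  obtain ⟨N, F, G, hV⟩ := growth hf hg (ρ := max ‖κ₁‖ ‖κ₂‖) (C := C) (R₀ := R₀)
    ((norm_nonneg _).trans (le_max_left _ _)) (max_lt h₁ h₂) hC0 (by
      intro z hz
      obtain ⟨w₁, w₂, a1, a2, a3, a4, a5⟩ := pts z hz
      have key : ∀ (w κ : ℂ), ‖κ‖ ≤ max ‖κ₁‖ ‖κ₂‖ → ‖w - κ * z‖ ≤ C →
          ‖w‖ ≤ max ‖κ₁‖ ‖κ₂‖ * ‖z‖ + C := by
        intro w κ hκ hw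
        calc ‖w‖ = ‖κ * z + (w - κ * z)‖ := by ring_nf
          _ ≤ ‖κ * z‖ + ‖w - κ * z‖ := norm_add_le _ _
          _ ≤ _ := by
            rw [norm_mul]
            gcongr
      exact ⟨w₁, w₂, a1, a2, a3, key w₁ κ₁ (le_max_left _ _) a4, key w₂ κ₂ (le_max_right _ _) a5⟩)
  -- the sequences
  choose! W₁ W₂ hW using pts
  have hk0 : ∀ᶠ k : ℕ in atTop, R₀ ≤ ‖(k : ℂ)‖ ∧ 0 < k := by
    obtain ⟨k₀, hk₀⟩ := exists_nat_ge R₀
    filter_upwards [eventually_ge_atTop k₀, eventually_gt_atTop 0] with k hk hk2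
    refine ⟨?_, hk2⟩
    rw [Complex.norm_natCast]
    exact hk₀.trans (by exact_mod_cast hk)
  have lim : ∀ (W : ℂ → ℂ) (κ : ℂ), (∀ z : ℂ, R₀ ≤ ‖z‖ → ‖W z - κ * z‖ ≤ C) →
      Tendsto (fun k : ℕ => W k / k) atTop (𝓝 κ) := by
    intro W κ hW
    rw [tendsto_iff_norm_sub_tendsto_zero]
    have h1 : Tendsto (fun k : ℕ => C / (k : ℝ)) atTop (𝓝 0) := tendsto_const_div_atTop_nhds_zero_nat C
    refine squeeze_zero' (Eventually.of_forall fun k => norm_nonneg _) ?_ h1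
    filter_upwards [hk0] with k hk
    have hk1 : (k : ℂ) ≠ 0 := by exact_mod_cast hk.2.ne'
    have h2 : W k / k - κ = (W k - κ * k) / k := by field_simp
    rw [h2, norm_div, Complex.norm_natCast]
    have := hW k hk.1
    gcongr
  have cancel : ∀ (W : ℂ → ℂ) (k : ℕ), 0 < k → (k : ℂ) * (W k / k) = W k := by
    intro W k hk
    have hk1 : (k : ℂ) ≠ 0 := by exact_mod_cast hk.ne'
    field_simp
  rw [hV]
  refine all_zero h₁ h₂ (lim W₁ κ₁ fun z hz => (hW z hz).2.2.2.1)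
    (lim W₂ κ₂ fun z hz => (hW z hz).2.2.2.2) ?_ ?_ ?_ z w
  · filter_upwards [hk0] with k hk
    intro h
    have hk1 : (k : ℂ) ≠ 0 := by exact_mod_cast hk.2.ne'
    have := (div_left_inj' hk1).1 h
    exact (hW k hk.1).1 this
  · filter_upwards [hk0] with k hk
    rw [cancel W₁ k hk.2, ← hV]
    exact (hW k hk.1).2.1
  · filter_upwards [hk0] with k hk
    rw [cancel W₂ k hk.2, ← hV]
    exact (hW k hk.1).2.2.1

end Pool.Agent.Zk69.BE
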