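import Pool.Agent.Zk69.BE4

set_option autoImplicit false

/-!
# Representation of biharmonic functions on the plane
-/

open Complex Finset Filter Topology Metric InnerProductSpace
open scoped ComplexConjugate Nat Laplacian

namespace Pool.Agent.Zk69.BE

theorem lap_contDiff {u : ℂ → ℝ} (hu : ContDiff ℝ 4 u) : ContDiff ℝ 2 (Δ u) := by
  rw [laplacian_eq_iteratedFDeriv_complexPlane]
  have h1 : ContDiff ℝ 2 (iteratedFDeriv ℝ 2 u) := hu.iteratedFDeriv_right (by norm_num)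
  have h2 : ∀ m : Fin 2 → ℂ, ContDiff ℝ 2 (fun x => iteratedFDeriv ℝ 2 u x m) := fun m =>
    (ContinuousMultilinearMap.apply ℝ (fun _ : Fin 2 => ℂ) ℝ m).contDiff.comp h1
  exact (h2 _).add (h2 _)

theorem lap_conj_mul {f f' f'' : ℂ → ℂ} (h1 : ∀ z, HasDerivAt f (f' z) z)
    (h2 : ∀ z, HasDerivAt f' (f'' z) z) (z : ℂ) :
    ContDiff ℝ 2 (fun z => conj z * f z) ∧ Δ (fun z => conj z * f z) z = 4 * f' z := by
  have hc : ContDiff ℝ 2 (fun z : ℂ => conj z) := (Complex.conjCLE : ℂ →L[ℝ] ℂ).contDiff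
  have hf : Differentiable ℂ f := fun z => (h1 z).differentiableAt
  have hf2 : ContDiff ℝ 2 f := (hf.contDiff (n := 2)).restrict_scalars ℝ
  have hF : ContDiff ℝ 2 (fun z => conj z * f z) := hc.mul hf2
  refine ⟨hF, ?_⟩
  have hcd : ∀ y : ℂ, HasFDerivAt (fun z : ℂ => conj z) (Complex.conjCLE : ℂ →L[ℝ] ℂ) y := fun y =>
    (Complex.conjCLE : ℂ →L[ℝ] ℂ).hasFDerivAt
  have key : ∀ v : ℂ, ∀ y : ℂ, fderiv ℝ (fun z => conj z * f z) y v =
      conj v * f y + conj y * (f' y * v) := by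
    intro v y
    have h3 := (hcd y).mul ((h1 y).hasFDerivAt.restrictScalars ℝ)
    have h3' : fderiv ℝ (fun z => conj z * f z) y = _ := h3.fderiv
    rw [h3']
    simp
    ring
  have key2 : ∀ v : ℂ, iteratedFDeriv ℝ 2 (fun z => conj z * f z) z ![v, v] =
      2 * (conj v * (f' z * v)) + conj z * (f'' z * v * v) := by
    intro v
    rw [iteratedFDeriv_two_apply]
    simp only [Matrix.cons_val_zero, Matrix.cons_val_one]
    have hdd : DifferentiableAt ℝ (fderiv ℝ (fun z => conj z * f z)) z :=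
      ((hF.fderiv_right (m := 1) (by norm_num)).differentiable (by norm_num)) z
    have h3 : fderiv ℝ (fun y => fderiv ℝ (fun z => conj z * f z) y v) z =
        (fderiv ℝ (fderiv ℝ (fun z => conj z * f z)) z).flip v := by
      rw [fderiv_clm_apply hdd (differentiableAt_const v)]
      simp
    have h4 : fderiv ℝ (fderiv ℝ (fun z => conj z * f z)) z v v =
        fderiv ℝ (fun y => fderiv ℝ (fun z => conj z * f z) y v) z v := by
      rw [h3]
      rfl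
    rw [h4, funext (key v)]
    have h5 := ((h1 z).hasFDerivAt.restrictScalars ℝ).const_mul (conj v)
    have h6 := ((h2 z).hasFDerivAt.restrictScalars ℝ).mul_const v
    have h7 := (hcd z).mul h6
    have h8 := h5.add h7
    have h9 : fderiv ℝ (fun y => conj v * f y + conj y * (f' y * v)) z = _ := h8.fderiv
    rw [h9]
    simp
    ring
  rw [laplacian_eq_iteratedFDeriv_complexPlane]
  simp only [key2]
  simp
  ring_nf
  simp
  ring

theorem rep {u : ℂ → ℝ} (hu : ContDiff ℝ 4 u) (hΔ : ∀ z, Δ (Δ u) z = 0) :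
    ∃ f g : ℂ → ℂ, Differentiable ℂ f ∧ Differentiable ℂ g ∧
      ∀ z, u z = (conj z * f z + g z).re := by
  have h1 : HarmonicOnNhd (Δ u) Set.univ := fun x _ =>
    ⟨(lap_contDiff hu).contDiffAt, Eventually.of_forall fun z => hΔ z⟩
  obtain ⟨H, hH, hHre⟩ := h1.exists_analyticOnNhd_univ_re_eq
  have hHd : Differentiable ℂ H := fun z => (hH z trivial).differentiableAt
  have hHd4 : Differentiable ℂ (fun z => H z / 4) := hHd.div_const 4
  obtain ⟨f, hf⟩ := hHd4.isExactOn_univ.with_val_at 0 0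
  have hf1 : ∀ z, HasDerivAt f (H z / 4) z := by simp_all
  have hf2 : ∀ z, HasDerivAt (fun z => H z / 4) (deriv (fun z => H z / 4) z) z := fun z =>
    (hHd4 z).hasDerivAt
  have hv : ∀ z, ContDiff ℝ 2 (fun z => conj z * f z) ∧ Δ (fun z => conj z * f z) z = 4 * (H z / 4) :=
    fun z => lap_conj_mul hf1 hf2 z
  have hvc := (hv 0).1
  set v : ℂ → ℝ := fun z => (conj z * f z).re with hvdef
  have hv2 : ContDiff ℝ 2 v := Complex.reCLM.contDiff.comp hvc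
  have hΔv : ∀ z, Δ v z = Δ u z := by
    intro z
    have h3 := ContDiffAt.laplacian_CLM_comp_left (l := Complex.reCLM) (hvc.contDiffAt (x := z))
    have h4 : Δ v z = (Δ (fun z => conj z * f z) z).re := h3
    rw [h4, (hv z).2, ← hHre]
    congr 1
    ring
  have h5 : HarmonicOnNhd (u - v) Set.univ := by
    intro x _
    refine ⟨((hu.of_le (by norm_num)).sub hv2).contDiffAt, Eventually.of_forall fun z => ?_⟩
    have := ContDiffAt.laplacian_sub ((hu.of_le (by norm_num) : ContDiff ℝ 2 u).contDiffAt (x := z))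
      (hv2.contDiffAt (x := z))
    rw [this, hΔv]
    simp
  obtain ⟨g, hg, hgre⟩ := h5.exists_analyticOnNhd_univ_re_eq
  refine ⟨f, g, fun z => (hf1 z).differentiableAt, fun z => (hg z trivial).differentiableAt,
    fun z => ?_⟩
  have h6 := congrFun hgre z
  simp only [Pi.sub_apply, hvdef] at h6
  rw [Complex.add_re]
  linarith

theorem U_real {f g : ℂ → ℂ} (z : ℂ) : U f g z (conj z) = 2 * ((conj z * f z + g z).re : ℂ) := by
  unfold U
  rw [Complex.conj_conj]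
  have h := Complex.add_conj (conj z * f z + g z)
  simp only [map_add, map_mul, Complex.conj_conj] at h
  have h2 : (2 : ℂ) * ((conj z * f z + g z).re : ℂ) = ((2 * (conj z * f z + g z).re : ℝ) : ℂ) := by
    push_cast
    ring
  rw [h2, ← h]
  ring

/-- an ellipse in complex notation -/
def Ell (α : ℝ) (β c : ℂ) : Set ℂ :=
  {z | α * ‖z - c‖ ^ 2 + (β * (z - c) ^ 2).re = 1}

/-- the parameters of an ellipse -/
theorem param {α : ℝ} {β : ℂ} (hαβ : ‖β‖ < α) : ∃ A : ℝ, ∃ κ : ℂ, 0 < A ∧ ‖κ‖ < 1 ∧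
    (α = (1 + ‖κ‖ ^ 2) / (A ^ 2 * (1 - ‖κ‖ ^ 2) ^ 2)) ∧
    (β = -(2 * κ) / ((A ^ 2 * (1 - ‖κ‖ ^ 2) ^ 2 : ℝ) : ℂ)) := by
  have hα : 0 < α := (norm_nonneg _).trans_lt hαβ
  have hd : 0 < α ^ 2 - ‖β‖ ^ 2 := by nlinarith [norm_nonneg β]
  set s := Real.sqrt (α ^ 2 - ‖β‖ ^ 2) with hs
  have hs0 : 0 < s := Real.sqrt_pos.2 hd
  have hs2 : s ^ 2 = α ^ 2 - ‖β‖ ^ 2 := Real.sq_sqrt hd.le
  have hT : 0 < α + s := by linarith
  set κ : ℂ := -β / ((α + s : ℝ) : ℂ) with hκ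
  have hκn : ‖κ‖ = ‖β‖ / (α + s) := by
    rw [hκ, norm_div, norm_neg, norm_real, Real.norm_eq_abs, abs_of_pos hT]
  have hκ2 : ‖κ‖ ^ 2 = (α - s) / (α + s) := by
    rw [hκn, div_pow, div_eq_div_iff (by positivity) (by positivity)]
    have : ‖β‖ ^ 2 = (α - s) * (α + s) := by linarith
    rw [this]
    ring
  have hκ1 : ‖κ‖ < 1 := by
    rw [hκn, div_lt_one hT]
    linarith
  set A := Real.sqrt ((α + s) / (2 * s ^ 2)) with hA
  have hA0 : 0 < A := Real.sqrt_pos.2 (by positivity)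
  have hA2 : A ^ 2 = (α + s) / (2 * s ^ 2) := Real.sq_sqrt (by positivity)
  have e1 : 1 - ‖κ‖ ^ 2 = 2 * s / (α + s) := by
    rw [hκ2]
    field_simp
    ring
  have e2 : A ^ 2 * (1 - ‖κ‖ ^ 2) ^ 2 = 2 / (α + s) := by
    rw [e1, hA2]
    field_simp
  refine ⟨A, κ, hA0, hκ1, ?_, ?_⟩
  · rw [e2, hκ2]
    field_simp
    ring
  · rw [e2, hκ]
    have : ((α + s : ℝ) : ℂ) ≠ 0 := by exact_mod_cast hT.ne'
    push_cast at this ⊢
    field_simp

theorem on_ell {α A : ℝ} {β κ : ℂ} (c : ℂ) (hA : 0 < A) (hκ : ‖κ‖ < 1)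
    (hα : α = (1 + ‖κ‖ ^ 2) / (A ^ 2 * (1 - ‖κ‖ ^ 2) ^ 2))
    (hβ : β = -(2 * κ) / ((A ^ 2 * (1 - ‖κ‖ ^ 2) ^ 2 : ℝ) : ℂ)) {t : ℂ} (ht : ‖t‖ = 1) :
    zc A κ c t ∈ Ell α β c := by
  have hk : 0 < 1 - ‖κ‖ ^ 2 := by nlinarith [norm_nonneg κ]
  have hc := conj_zc (A := A) (κ := κ) (c := c) ht
  set z := zc A κ c t with hz
  have ht0 : t ≠ 0 := by
    intro h
    rw [h] at ht
    simp at ht
  have hA' : (A : ℂ) ≠ 0 := by exact_mod_cast hA.ne'
  have hkk : (‖κ‖ : ℂ) ^ 2 = κ * conj κ := by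
    rw [mul_conj, Complex.normSq_eq_norm_sq]
    push_cast
    ring
  have hk' : (1 - κ * conj κ : ℂ) ≠ 0 := by
    rw [← hkk]
    exact_mod_cast hk.ne'
  have e1 : z - c = A * (t + conj κ / t) := by rw [hz]; unfold zc; ring
  have e2 : conj (z - c) = A * (1 / t + κ * t) := by
    rw [map_sub, hc]; unfold wc; ring
  have e3 : ((‖z - c‖ ^ 2 : ℝ) : ℂ) = (z - c) * conj (z - c) := by
    rw [mul_conj, Complex.normSq_eq_norm_sq]
  have e4 : ((2 * (β * (z - c) ^ 2).re : ℝ) : ℂ) = β * (z - c) ^ 2 + conj β * conj (z - c) ^ 2 := by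
    rw [← Complex.add_conj, map_mul, map_pow]
  have hβ' : conj β = -(2 * conj κ) / ((A ^ 2 * (1 - ‖κ‖ ^ 2) ^ 2 : ℝ) : ℂ) := by
    rw [hβ]
    simp [map_ofNat]
  show α * ‖z - c‖ ^ 2 + (β * (z - c) ^ 2).re = 1
  have goal : ((2 * (α * ‖z - c‖ ^ 2) + 2 * (β * (z - c) ^ 2).re : ℝ) : ℂ) = 2 := by
    rw [ofReal_add, e4]
    have e5 : ((2 * (α * ‖z - c‖ ^ 2) : ℝ) : ℂ) = 2 * α * ((z - c) * conj (z - c)) := by
      rw [← e3]
      push_cast
      ring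
    rw [e5, hβ', hα, hβ, e2, e1]
    push_cast
    rw [hkk]
    field_simp
    ring
  have goal2 : 2 * (α * ‖z - c‖ ^ 2) + 2 * (β * (z - c) ^ 2).re = 2 := by exact_mod_cast goal
  linarith

/-- two distinct ellipses: the function vanishes -/
theorem two_ell {u : ℂ → ℝ} (hu : ContDiff ℝ 4 u) (hΔ : ∀ z, Δ (Δ u) z = 0)
    {α₁ α₂ : ℝ} {β₁ β₂ c₁ c₂ : ℂ} (h₁ : ‖β₁‖ < α₁) (h₂ : ‖β₂‖ < α₂)
    (hne : Ell α₁ β₁ c₁ ≠ Ell α₂ β₂ c₂) (hE1 : ∀ z ∈ Ell α₁ β₁ c₁, u z = 0)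
    (hE2 : ∀ z ∈ Ell α₂ β₂ c₂, u z = 0) (z : ℂ) : u z = 0 := by
  obtain ⟨f, g, hf, hg, hrep⟩ := rep hu hΔ
  obtain ⟨A₁, κ₁, hA₁, hκ₁, a1, b1⟩ := param h₁
  obtain ⟨A₂, κ₂, hA₂, hκ₂, a2, b2⟩ := param h₂
  have hU := main hf hg hA₁ hA₂ (c₁ := c₁) (c₂ := c₂) hκ₁ hκ₂ (by
    rintro ⟨e1, e2, e3⟩
    refine hne ?_
    rw [a1, a2, b1, b2, e1, e2, e3]) (by
      intro t ht
      rw [U_real, ← hrep, hE1 _ (on_ell c₁ hA₁ hκ₁ a1 b1 ht)]
      simp) (by
      intro t ht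
      rw [U_real, ← hrep, hE2 _ (on_ell c₂ hA₂ hκ₂ a2 b2 ht)]
      simp) z (conj z)
  rw [U_real, ← hrep] at hU
  simpa using hU

end Pool.Agent.Zk69.BE
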