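import Pool.Agent.R225.NM.Poin

set_option autoImplicit false

/-!
# The one-dimensional weighted Poincaré inequality of Payne and Weinberger
-/

open MeasureTheory Set Filter Topology
open scoped Real

namespace Pool.Agent.Zk69

/-- sharp Wirtinger inequality for primitives of continuous functions of mean zero -/
theorem wirtC {g : ℝ → ℝ} {a b : ℝ} (hab : a < b) (hg : Continuous g)
    (h0 : ∫ x in a..b, g x = 0) :
    π ^ 2 * ∫ x in a..b, (∫ s in a..x, g s) ^ 2 ≤ (b - a) ^ 2 * ∫ x in a..b, g x ^ 2 := by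
  set L : ℝ := b - a with hL
  have hL0 : 0 < L := by rw [hL]; linarith
  set f : ℝ → ℝ := fun t => g (L * t + a) with hf
  have cf : Continuous f := by
    rw [hf]; fun_prop
  have hsub : ∀ (F : ℝ → ℝ) (y : ℝ), ∫ t in (0:ℝ)..y, F (L * t + a) =
      L⁻¹ * ∫ x in a..(L * y + a), F x := by
    intro F y
    rw [intervalIntegral.integral_comp_mul_add F hL0.ne' a]
    simp
  have hb : L * 1 + a = b := by rw [hL]; ring
  have h01 : ∫ t in (0:ℝ)..(0 + 1), f t = 0 := by
    rw [zero_add, hf, hsub g 1, hb, h0, mul_zero]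
  have key : ∀ c : ℝ, 0 < c → c < π →
      c ^ 2 * ∫ x in a..b, (∫ s in a..x, g s) ^ 2 ≤ L ^ 2 * ∫ x in a..b, g x ^ 2 := by
    intro c hc hcπ
    have h1 := Pool.Agent.R225.NM.wirt cf 0 hc hcπ h01
    rw [zero_add] at h1
    have h2 : ∫ x in (0:ℝ)..1, (∫ s in (0:ℝ)..x, f s) ^ 2 =
        L⁻¹ ^ 3 * ∫ x in a..b, (∫ s in a..x, g s) ^ 2 := by
      have e1 : ∀ x, (∫ s in (0:ℝ)..x, f s) ^ 2 =
          (fun y => (L⁻¹ * ∫ s in a..y, g s) ^ 2) (L * x + a) := by
        intro x
        simp only [hf]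
        rw [hsub g x]
      simp only [e1]
      rw [hsub (fun y => (L⁻¹ * ∫ s in a..y, g s) ^ 2) 1, hb]
      simp only [mul_pow]
      rw [intervalIntegral.integral_const_mul]
      ring
    have h3 : ∫ x in (0:ℝ)..1, f x ^ 2 = L⁻¹ * ∫ x in a..b, g x ^ 2 := by
      have := hsub (fun y => g y ^ 2) 1
      rw [hb] at this
      exact this
    rw [h2, h3] at h1
    have h4 : L ^ 3 * (c ^ 2 * (L⁻¹ ^ 3 * ∫ x in a..b, (∫ s in a..x, g s) ^ 2)) ≤
        L ^ 3 * (L⁻¹ * ∫ x in a..b, g x ^ 2) := mul_le_mul_of_nonneg_left h1 (by positivity)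
    have h5 : L ^ 3 * (c ^ 2 * (L⁻¹ ^ 3 * ∫ x in a..b, (∫ s in a..x, g s) ^ 2)) =
        c ^ 2 * ∫ x in a..b, (∫ s in a..x, g s) ^ 2 := by
      field_simp
    have h6 : L ^ 3 * (L⁻¹ * ∫ x in a..b, g x ^ 2) = L ^ 2 * ∫ x in a..b, g x ^ 2 := by
      field_simp
    rw [h5, h6] at h4
    exact h4
  have hlim : Tendsto (fun c : ℝ => c ^ 2 * ∫ x in a..b, (∫ s in a..x, g s) ^ 2) (𝓝[<] π)
      (𝓝 (π ^ 2 * ∫ x in a..b, (∫ s in a..x, g s) ^ 2)) := by
    have : Continuous fun c : ℝ => c ^ 2 * ∫ x in a..b, (∫ s in a..x, g s) ^ 2 := by fun_prop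
    exact this.continuousAt.tendsto.mono_left nhdsWithin_le_nhds
  refine le_of_tendsto hlim ?_
  filter_upwards [Ioo_mem_nhdsLT Real.pi_pos] with c hc
  exact key c hc.1 hc.2

theorem wirtD {g : ℝ → ℝ} {a b : ℝ} (hab : a < b) (hg : ContinuousOn g (Icc a b))
    (h0 : ∫ x in a..b, g x = 0) :
    π ^ 2 * ∫ x in a..b, (∫ s in a..x, g s) ^ 2 ≤ (b - a) ^ 2 * ∫ x in a..b, g x ^ 2 := by
  set G : ℝ → ℝ := fun x => g (projIcc a b hab.le x) with hG
  have cG : Continuous G := by
    have := hg.domRestrict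
    exact this.comp continuous_projIcc
  have hGe : ∀ x ∈ Icc a b, G x = g x := fun x hx => by
    simp only [hG]
    rw [projIcc_of_mem hab.le hx]
  have e0 : ∀ x ∈ Icc a b, ∫ s in a..x, G s = ∫ s in a..x, g s := by
    intro x hx
    refine intervalIntegral.integral_congr fun s hs => hGe s ?_
    rw [uIcc_of_le hx.1] at hs
    exact ⟨hs.1, hs.2.trans hx.2⟩
  have e1 : ∫ x in a..b, (∫ s in a..x, G s) ^ 2 = ∫ x in a..b, (∫ s in a..x, g s) ^ 2 := by
    refine intervalIntegral.integral_congr fun x hx => ?_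
    rw [uIcc_of_le hab.le] at hx
    rw [e0 x hx]
  have e2 : ∫ x in a..b, G x ^ 2 = ∫ x in a..b, g x ^ 2 := by
    refine intervalIntegral.integral_congr fun x hx => ?_
    rw [uIcc_of_le hab.le] at hx
    rw [hGe x hx]
  have := wirtC hab cG (by rw [e0 b (right_mem_Icc.2 hab.le), h0])
  rwa [e1, e2] at this

/-- **The weighted Poincaré inequality of Payne and Weinberger**, smooth positive concave weight. -/
theorem pwA {a b : ℝ} (hab : a < b) {h h' h'' φ φ' : ℝ → ℝ}
    (hh : ∀ x ∈ Icc a b, HasDerivAt h (h' x) x) (hh' : ∀ x ∈ Icc a b, HasDerivAt h' (h'' x) x)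
    (hc : ContinuousOn h'' (Icc a b)) (hpos : ∀ x ∈ Icc a b, 0 < h x)
    (hneg : ∀ x ∈ Icc a b, h'' x ≤ 0)
    (hφ : ∀ x, HasDerivAt φ (φ' x) x) (hφc : Continuous φ')
    (hm : ∫ x in a..b, h x * φ x = 0) :
    π ^ 2 * ∫ x in a..b, h x * φ x ^ 2 ≤ (b - a) ^ 2 * ∫ x in a..b, h x * φ' x ^ 2 := by
  have uab : uIcc a b = Icc a b := uIcc_of_le hab.le
  have ch : ContinuousOn h (Icc a b) := fun x hx => (hh x hx).continuousAt.continuousWithinAt
  have ch' : ContinuousOn h' (Icc a b) := fun x hx => (hh' x hx).continuousAt.continuousWithinAt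
  have cφ : Continuous φ := continuous_iff_continuousAt.2 fun x => (hφ x).continuousAt
  have hint : ∀ F : ℝ → ℝ, ContinuousOn F (Icc a b) → IntervalIntegrable F volume a b := by
    intro F hF
    refine ContinuousOn.intervalIntegrable ?_
    rwa [uab]
  -- the primitive
  set q : ℝ → ℝ := fun x => (fun y => h y * φ y) (projIcc a b hab.le x) with hq
  have cq : Continuous q := (ch.mul cφ.continuousOn).domRestrict.comp continuous_projIcc
  have hqe : ∀ x ∈ Icc a b, q x = h x * φ x := fun x hx => by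
    simp only [hq]
    rw [projIcc_of_mem hab.le hx]
  set G : ℝ → ℝ := fun x => ∫ s in a..x, q s with hG
  have dG : ∀ x, HasDerivAt G (q x) x := fun x =>
    intervalIntegral.integral_hasDerivAt_right (cq.intervalIntegrable _ _)
      (cq.stronglyMeasurableAtFilter _ _) cq.continuousAt
  have cG : Continuous G := continuous_iff_continuousAt.2 fun x => (dG x).continuousAt
  have hGa : G a = 0 := by simp [hG]
  have hGb : G b = 0 := by
    rw [← hm]
    refine intervalIntegral.integral_congr fun x hx => ?_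
    rw [uab] at hx
    exact hqe x hx
  -- the transformed function
  set s : ℝ → ℝ := fun x => √(h x) with hs
  have hspos : ∀ x ∈ Icc a b, 0 < s x := fun x hx => Real.sqrt_pos.2 (hpos x hx)
  have hssq : ∀ x ∈ Icc a b, s x ^ 2 = h x := fun x hx => Real.sq_sqrt (hpos x hx).le
  have ds : ∀ x ∈ Icc a b, HasDerivAt s (h' x / (2 * s x)) x := fun x hx =>
    (hh x hx).sqrt (hpos x hx).ne'
  set f : ℝ → ℝ := fun x => G x / s x with hf
  set f1 : ℝ → ℝ := fun x => q x / s x - G x * h' x / (2 * h x * s x) with hf1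
  have df : ∀ x ∈ Icc a b, HasDerivAt f (f1 x) x := by
    intro x hx
    refine ((dG x).div (ds x hx) (hspos x hx).ne').congr_deriv ?_
    have h1 := hspos x hx
    have h2 := hssq x hx
    simp only [hf1]
    rw [← h2]
    field_simp
  have cs : ContinuousOn s (Icc a b) := fun x hx => (ds x hx).continuousAt.continuousWithinAt
  have cf : ContinuousOn f (Icc a b) := fun x hx => (df x hx).continuousAt.continuousWithinAt
  have cf1 : ContinuousOn f1 (Icc a b) := by
    refine (cq.continuousOn.div cs fun x hx => (hspos x hx).ne').sub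
      ((cG.continuousOn.mul ch').div ((continuousOn_const.mul ch).mul cs) fun x hx => ?_)
    have := hspos x hx
    have := hpos x hx
    positivity
  have hfa : f a = 0 := by simp [hf, hGa]
  have hfb : f b = 0 := by simp [hf, hGb]
  have hfx : ∀ x ∈ Icc a b, ∫ t in a..x, f1 t = f x := by
    intro x hx
    rw [intervalIntegral.integral_eq_sub_of_hasDerivAt (f := f), hfa, sub_zero]
    · intro t ht
      rw [uIcc_of_le hx.1] at ht
      exact df t ⟨ht.1, ht.2.trans hx.2⟩
    · refine ContinuousOn.intervalIntegrable ?_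
      rw [uIcc_of_le hx.1]
      exact cf1.mono (Icc_subset_Icc_right hx.2)
  have hw := wirtD hab cf1 (by rw [hfx b (right_mem_Icc.2 hab.le), hfb])
  have hw2 : ∫ x in a..b, (∫ t in a..x, f1 t) ^ 2 = ∫ x in a..b, f x ^ 2 := by
    refine intervalIntegral.integral_congr fun x hx => ?_
    rw [uab] at hx
    rw [hfx x hx]
  rw [hw2] at hw
  -- `∫ f1² ≤ ∫ h φ²`
  set ρ : ℝ → ℝ := fun x => h' x / h x with hρ
  have dρ : ∀ x ∈ Icc a b, HasDerivAt ρ (h'' x / h x - ρ x ^ 2) x := by
    intro x hx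
    refine ((hh' x hx).div (hh x hx) (hpos x hx).ne').congr_deriv ?_
    have h1 := hpos x hx
    simp only [hρ]
    field_simp
  have cρ : ContinuousOn ρ (Icc a b) := fun x hx => (dρ x hx).continuousAt.continuousWithinAt
  have cB : ContinuousOn (fun x => (h'' x / h x - ρ x ^ 2) * f x ^ 2 + ρ x * (2 * f x * f1 x))
      (Icc a b) := by
    refine (((hc.div ch fun x hx => (hpos x hx).ne').sub (cρ.pow 2)).mul (cf.pow 2)).add
      (cρ.mul ((continuousOn_const.mul cf).mul cf1))
  have hB : ∫ x in a..b, ((h'' x / h x - ρ x ^ 2) * f x ^ 2 + ρ x * (2 * f x * f1 x)) = 0 := by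
    have h1 : ∀ x ∈ uIcc a b, HasDerivAt (fun x => ρ x * f x ^ 2)
        ((h'' x / h x - ρ x ^ 2) * f x ^ 2 + ρ x * (2 * f x * f1 x)) x := by
      intro x hx
      rw [uab] at hx
      refine ((dρ x hx).mul ((df x hx).pow 2)).congr_deriv ?_
      simp
    rw [intervalIntegral.integral_eq_sub_of_hasDerivAt h1 (hint _ cB), hfa, hfb]
    simp
  have hpt : ∀ x ∈ Icc a b, f1 x ^ 2 + (1 / 2) *
      ((h'' x / h x - ρ x ^ 2) * f x ^ 2 + ρ x * (2 * f x * f1 x)) ≤ h x * φ x ^ 2 := by
    intro x hx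
    have h1 := hspos x hx
    have h2 := hssq x hx
    have h3 := hpos x hx
    have e1 : h x * φ x ^ 2 = (q x / s x) ^ 2 := by
      rw [hqe x hx, div_pow, h2]
      field_simp
    have e2 : q x / s x = f1 x + ρ x / 2 * f x := by
      simp only [hf1, hρ, hf]
      field_simp
      ring
    rw [e1, e2]
    have h4 : h'' x / h x ≤ 0 := div_nonpos_of_nonpos_of_nonneg (hneg x hx) h3.le
    nlinarith [mul_nonneg (neg_nonneg.2 h4) (sq_nonneg (f x)), sq_nonneg (ρ x * f x)]
  have cA : ContinuousOn (fun x => h x * φ x ^ 2) (Icc a b) := ch.mul (cφ.continuousOn.pow 2)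
  have iB : IntervalIntegrable (fun x => (1 / 2 : ℝ) *
      ((h'' x / h x - ρ x ^ 2) * f x ^ 2 + ρ x * (2 * f x * f1 x))) volume a b :=
    hint _ (continuousOn_const.mul cB)
  have i1 : IntervalIntegrable (fun x => f1 x ^ 2) volume a b := hint _ (cf1.pow 2)
  have hle : ∫ x in a..b, f1 x ^ 2 ≤ ∫ x in a..b, h x * φ x ^ 2 := by
    have h1 : ∫ x in a..b, (f1 x ^ 2 + (1 / 2) *
        ((h'' x / h x - ρ x ^ 2) * f x ^ 2 + ρ x * (2 * f x * f1 x))) ≤
        ∫ x in a..b, h x * φ x ^ 2 :=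
      intervalIntegral.integral_mono_on hab.le (i1.add iB) (hint _ cA) hpt
    rw [intervalIntegral.integral_add i1 iB,
      intervalIntegral.integral_const_mul, hB] at h1
    linarith
  -- integration by parts
  have hibp : ∫ x in a..b, h x * φ x ^ 2 = - ∫ x in a..b, G x * φ' x := by
    have h1 : ∀ x ∈ uIcc a b, HasDerivAt (fun x => G x * φ x) (q x * φ x + G x * φ' x) x :=
      fun x _ => (dG x).mul (hφ x)
    have j1 : IntervalIntegrable (fun x => q x * φ x) volume a b :=
      (cq.mul cφ).intervalIntegrable _ _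
    have j2 : IntervalIntegrable (fun x => G x * φ' x) volume a b :=
      (cG.mul hφc).intervalIntegrable _ _
    have h2 := intervalIntegral.integral_eq_sub_of_hasDerivAt h1 (j1.add j2)
    rw [hGa, hGb, zero_mul, zero_mul, sub_zero, intervalIntegral.integral_add j1 j2] at h2
    have h3 : ∫ x in a..b, h x * φ x ^ 2 = ∫ x in a..b, q x * φ x := by
      refine intervalIntegral.integral_congr fun x hx => ?_
      rw [uab] at hx
      rw [hqe x hx]
      ring
    rw [h3]
    linarith
  set A : ℝ := ∫ x in a..b, h x * φ x ^ 2 with hA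
  set B : ℝ := ∫ x in a..b, h x * φ' x ^ 2 with hB'
  set F2 : ℝ := ∫ x in a..b, f x ^ 2 with hF2
  have hF2A : π ^ 2 * F2 ≤ (b - a) ^ 2 * A :=
    hw.trans (mul_le_mul_of_nonneg_left hle (sq_nonneg _))
  set L : ℝ := b - a with hL
  have hL0 : 0 < L := by rw [hL]; linarith
  set t : ℝ := π ^ 2 / L ^ 2 with ht
  have ht0 : 0 < t := by rw [ht]; positivity
  have hyoung : A ≤ t / 2 * F2 + 1 / (2 * t) * B := by
    have h1 : ∀ x ∈ Icc a b, -(G x * φ' x) ≤ t / 2 * f x ^ 2 + 1 / (2 * t) * (h x * φ' x ^ 2) := by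
      intro x hx
      have h1 := hspos x hx
      have h2 := hssq x hx
      have e1 : G x = f x * s x := by
        simp only [hf]
        field_simp
      rw [e1, ← h2]
      have h3 : 0 ≤ 1 / (2 * t) * (t * f x + s x * φ' x) ^ 2 := by positivity
      have h4 : 1 / (2 * t) * (t * f x + s x * φ' x) ^ 2 =
          t / 2 * f x ^ 2 + 1 / (2 * t) * (s x ^ 2 * φ' x ^ 2) + f x * s x * φ' x := by
        field_simp
        ring
      linarith
    have c1 : ContinuousOn (fun x => -(G x * φ' x)) (Icc a b) :=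
      (cG.continuousOn.mul hφc.continuousOn).neg
    have c2 : ContinuousOn (fun x => t / 2 * f x ^ 2) (Icc a b) := continuousOn_const.mul (cf.pow 2)
    have c3 : ContinuousOn (fun x => 1 / (2 * t) * (h x * φ' x ^ 2)) (Icc a b) :=
      continuousOn_const.mul (ch.mul (hφc.continuousOn.pow 2))
    have k2 : IntervalIntegrable (fun x => t / 2 * f x ^ 2) volume a b := hint _ c2
    have k3 : IntervalIntegrable (fun x => 1 / (2 * t) * (h x * φ' x ^ 2)) volume a b := hint _ c3
    have h2 : ∫ x in a..b, -(G x * φ' x) ≤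
        ∫ x in a..b, (t / 2 * f x ^ 2 + 1 / (2 * t) * (h x * φ' x ^ 2)) :=
      intervalIntegral.integral_mono_on hab.le (hint _ c1) (k2.add k3) h1
    rw [intervalIntegral.integral_neg, ← hibp, intervalIntegral.integral_add k2
      k3, intervalIntegral.integral_const_mul, intervalIntegral.integral_const_mul] at h2
    exact h2
  have h5 : t * L ^ 2 = π ^ 2 := by rw [ht]; field_simp
  have h6 : t * F2 ≤ A := by
    have : L ^ 2 * (t * F2) ≤ L ^ 2 * A := by
      calc L ^ 2 * (t * F2) = (t * L ^ 2) * F2 := by ring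
        _ = π ^ 2 * F2 := by rw [h5]
        _ ≤ L ^ 2 * A := hF2A
    exact le_of_mul_le_mul_left this (by positivity)
  have h7 : A ≤ 1 / t * B := by
    have : 1 / (2 * t) * B = (1 / t * B) / 2 := by field_simp
    linarith
  calc π ^ 2 * A ≤ π ^ 2 * (1 / t * B) := mul_le_mul_of_nonneg_left h7 (by positivity)
    _ = L ^ 2 * B := by
      rw [← h5]
      field_simp

end Pool.Agent.Zk69
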