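import Pool.Agent.Zk69.PW1

set_option autoImplicit false

/-!
# The one-dimensional weighted Poincaré inequality of Payne and Weinberger, concave weights
-/

open MeasureTheory Set Filter Topology
open scoped Real

namespace Pool.Agent.Zk69

theorem pwA' {a b : ℝ} (hab : a < b) {h h' h'' φ φ' : ℝ → ℝ}
    (hh : ∀ x ∈ Icc a b, HasDerivAt h (h' x) x) (hh' : ∀ x ∈ Icc a b, HasDerivAt h' (h'' x) x)
    (hc : ContinuousOn h'' (Icc a b)) (hpos : ∀ x ∈ Icc a b, 0 < h x)
    (hneg : ∀ x ∈ Icc a b, h'' x ≤ 0)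
    (hφ : ∀ x, HasDerivAt φ (φ' x) x) (hφc : Continuous φ') :
    π ^ 2 * ((∫ x in a..b, h x * φ x ^ 2) * (∫ x in a..b, h x) - (∫ x in a..b, h x * φ x) ^ 2) ≤
      (b - a) ^ 2 * ((∫ x in a..b, h x * φ' x ^ 2) * ∫ x in a..b, h x) := by
  have uab : uIcc a b = Icc a b := uIcc_of_le hab.le
  have ch : ContinuousOn h (Icc a b) := fun x hx => (hh x hx).continuousAt.continuousWithinAt
  have cφ : Continuous φ := continuous_iff_continuousAt.2 fun x => (hφ x).continuousAt
  have hint : ∀ F : ℝ → ℝ, Continuous F → IntervalIntegrable (fun x => h x * F x) volume a b := by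
    intro F hF
    refine ContinuousOn.intervalIntegrable ?_
    rw [uab]
    exact ch.mul hF.continuousOn
  have i0 : IntervalIntegrable h volume a b := by
    refine ContinuousOn.intervalIntegrable ?_
    rwa [uab]
  have hH : 0 < ∫ x in a..b, h x :=
    intervalIntegral.intervalIntegral_pos_of_pos_on i0
      (fun x hx => hpos x ⟨hx.1.le, hx.2.le⟩) hab
  set H : ℝ := ∫ x in a..b, h x with hHd
  set J : ℝ := ∫ x in a..b, h x * φ x with hJ
  set m : ℝ := J / H with hm
  have hmH : m * H = J := by rw [hm]; field_simp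
  have i1 : IntervalIntegrable (fun x => h x * φ x) volume a b := hint φ cφ
  have i2 : IntervalIntegrable (fun x => h x * φ x ^ 2) volume a b := hint _ (cφ.pow 2)
  have e0 : ∫ x in a..b, h x * (φ x - m) = 0 := by
    have e1 : ∀ x, h x * (φ x - m) = h x * φ x - m * h x := fun x => by ring
    simp only [e1]
    rw [intervalIntegral.integral_sub i1 (i0.const_mul m), intervalIntegral.integral_const_mul]
    rw [← hHd, ← hJ, hmH, sub_self]
  have key := pwA hab hh hh' hc hpos hneg (φ := fun x => φ x - m) (φ' := φ')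
    (fun x => (hφ x).sub_const m) hφc e0
  have e2 : ∫ x in a..b, h x * (φ x - m) ^ 2 = (∫ x in a..b, h x * φ x ^ 2) - 2 * m * J +
      m ^ 2 * H := by
    have e1 : ∀ x, h x * (φ x - m) ^ 2 = (h x * φ x ^ 2 - (2 * m) * (h x * φ x)) +
        m ^ 2 * h x := fun x => by ring
    simp only [e1]
    rw [intervalIntegral.integral_add (i2.sub (i1.const_mul _)) (i0.const_mul _),
      intervalIntegral.integral_sub i2 (i1.const_mul _), intervalIntegral.integral_const_mul,
      intervalIntegral.integral_const_mul]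
  rw [e2] at key
  have k2 := mul_le_mul_of_nonneg_right key hH.le
  calc π ^ 2 * ((∫ x in a..b, h x * φ x ^ 2) * H - J ^ 2) =
      π ^ 2 * ((∫ x in a..b, h x * φ x ^ 2) - 2 * m * J + m ^ 2 * H) * H := by
        rw [← hmH]
        ring
    _ ≤ _ := k2
    _ = _ := by ring

theorem conc_mid {s : Set ℝ} {h : ℝ → ℝ} (hc : ConcaveOn ℝ s h) {x y z : ℝ} (hx : x ∈ s)
    (hy : y ∈ s) (hz : x + y = 2 * z) : h x + h y ≤ 2 * h z := by
  have h1 := hc.2 hx hy (show (0:ℝ) ≤ 1 / 2 by norm_num) (show (0:ℝ) ≤ 1 / 2 by norm_num)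
    (by norm_num)
  have h2 : (1 / 2 : ℝ) • x + (1 / 2 : ℝ) • y = z := by
    simp only [smul_eq_mul]
    linarith
  rw [h2] at h1
  simp only [smul_eq_mul] at h1
  linarith

/-- moving average -/
noncomputable def av (δ : ℝ) (g : ℝ → ℝ) (x : ℝ) : ℝ :=
  ((∫ s in (0:ℝ)..(x + δ), g s) - ∫ s in (0:ℝ)..(x - δ), g s) / (2 * δ)

theorem av_eq {δ : ℝ} {g : ℝ → ℝ} (hg : Continuous g) (x : ℝ) :
    av δ g x = (∫ s in (x - δ)..(x + δ), g s) / (2 * δ) := by
  unfold av
  rw [intervalIntegral.integral_interval_sub_left (hg.intervalIntegrable _ _)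
    (hg.intervalIntegrable _ _)]

theorem av_deriv {δ : ℝ} {g : ℝ → ℝ} (hg : Continuous g) (x : ℝ) :
    HasDerivAt (av δ g) ((g (x + δ) - g (x - δ)) / (2 * δ)) x := by
  have h1 : ∀ y, HasDerivAt (fun z => ∫ s in (0:ℝ)..z, g s) (g y) y := fun y =>
    intervalIntegral.integral_hasDerivAt_right (hg.intervalIntegrable _ _)
      (hg.stronglyMeasurableAtFilter _ _) hg.continuousAt
  have h2 : HasDerivAt (fun z => ∫ s in (0:ℝ)..(z + δ), g s) (g (x + δ)) x := by
    exact (h1 (x + δ)).comp_add_const x δ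
  have h3 : HasDerivAt (fun z => ∫ s in (0:ℝ)..(z - δ), g s) (g (x - δ)) x := by
    exact (h1 (x - δ)).comp_sub_const x δ
  exact (h2.sub h3).div_const _

theorem av_cont {δ : ℝ} {g : ℝ → ℝ} (hg : Continuous g) : Continuous (av δ g) :=
  continuous_iff_continuousAt.2 fun x => (av_deriv hg x).continuousAt

theorem av_ge {δ : ℝ} (hδ : 0 < δ) {g : ℝ → ℝ} (hg : Continuous g) {x c : ℝ}
    (h : ∀ z, |z - x| ≤ δ → c ≤ g z) : c ≤ av δ g x := by
  rw [av_eq hg, le_div_iff₀ (by positivity)]
  have h1 : ∫ s in (x - δ)..(x + δ), c ≤ ∫ s in (x - δ)..(x + δ), g s := by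
    refine intervalIntegral.integral_mono_on (by linarith) (by simp) (hg.intervalIntegrable _ _) ?_
    intro z hz
    refine h z (abs_le.2 ⟨by linarith [hz.1], by linarith [hz.2]⟩)
  rw [intervalIntegral.integral_const, smul_eq_mul] at h1
  linarith

theorem av_le {δ : ℝ} (hδ : 0 < δ) {g : ℝ → ℝ} (hg : Continuous g) {x c : ℝ}
    (h : ∀ z, |z - x| ≤ δ → g z ≤ c) : av δ g x ≤ c := by
  rw [av_eq hg, div_le_iff₀ (by positivity)]
  have h1 : ∫ s in (x - δ)..(x + δ), g s ≤ ∫ s in (x - δ)..(x + δ), c := by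
    refine intervalIntegral.integral_mono_on (by linarith) (hg.intervalIntegrable _ _) (by simp) ?_
    intro z hz
    refine h z (abs_le.2 ⟨by linarith [hz.1], by linarith [hz.2]⟩)
  rw [intervalIntegral.integral_const, smul_eq_mul] at h1
  linarith

/-- **The weighted Poincaré inequality of Payne and Weinberger**, positive concave weight. -/
theorem pwB {α β : ℝ} (hαβ : α < β) {h φ φ' : ℝ → ℝ} (hconc : ConcaveOn ℝ (Ioo α β) h)
    (hpos : ∀ x ∈ Ioo α β, 0 < h x) (hφ : ∀ x, HasDerivAt φ (φ' x) x) (hφc : Continuous φ') :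
    π ^ 2 * ((∫ x in Ioo α β, h x * φ x ^ 2) * (∫ x in Ioo α β, h x) -
      (∫ x in Ioo α β, h x * φ x) ^ 2) ≤
      (β - α) ^ 2 * ((∫ x in Ioo α β, h x * φ' x ^ 2) * ∫ x in Ioo α β, h x) := by
  have cφ : Continuous φ := continuous_iff_continuousAt.2 fun x => (hφ x).continuousAt
  have ch : ContinuousOn h (Ioo α β) := hconc.continuousOn isOpen_Ioo
  -- bound for `h`
  set mid : ℝ := (α + β) / 2 with hmid
  have hmidm : mid ∈ Ioo α β := ⟨by rw [hmid]; linarith, by rw [hmid]; linarith⟩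
  set Hm : ℝ := 2 * h mid with hHm
  have hHm0 : 0 < Hm := by
    have := hpos mid hmidm
    rw [hHm]; linarith
  have hle : ∀ x ∈ Ioo α β, h x ≤ Hm := by
    intro x hx
    have hx' : 2 * mid - x ∈ Ioo α β := ⟨by rw [hmid]; linarith [hx.2], by rw [hmid]; linarith [hx.1]⟩
    have h1 := conc_mid hconc hx hx' (z := mid) (by ring)
    have := hpos _ hx'
    rw [hHm]
    linarith
  -- the approximation
  have hlt : ∀ δ : ℝ, δ < (β - α) / 8 → α + δ ≤ β - δ := fun δ hδ => by linarith
  let k : ℝ → ℝ → ℝ := fun δ z => if hd : α + δ ≤ β - δ then h (projIcc (α + δ) (β - δ) hd z) else 0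
  have hk : ∀ δ : ℝ, 0 < δ → δ < (β - α) / 8 → (Continuous (k δ)) ∧
      (∀ z, 0 < k δ z ∧ k δ z ≤ Hm) ∧ (∀ z ∈ Icc (α + δ) (β - δ), k δ z = h z) := by
    intro δ hδ hδ'
    have hd := hlt δ hδ'
    have hsub : Icc (α + δ) (β - δ) ⊆ Ioo α β := fun z hz =>
      ⟨by linarith [hz.1], by linarith [hz.2]⟩
    have e : k δ = fun z => h (projIcc (α + δ) (β - δ) hd z) := by
      funext z
      simp only [k]
      rw [dif_pos hd]
    refine ⟨?_, ?_, ?_⟩
    · rw [e]
      exact (ch.mono hsub).domRestrict.comp continuous_projIcc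
    · intro z
      rw [e]
      have hz := hsub (projIcc (α + δ) (β - δ) hd z).2
      exact ⟨hpos _ hz, hle _ hz⟩
    · intro z hz
      rw [e]
      simp only
      rw [projIcc_of_mem hd hz]
  let hδf : ℝ → ℝ → ℝ := fun δ => av δ (av δ (k δ))
  have smooth : ∀ δ : ℝ, 0 < δ → δ < (β - α) / 8 →
      π ^ 2 * ((∫ x in (α + 3 * δ)..(β - 3 * δ), hδf δ x * φ x ^ 2) *
        (∫ x in (α + 3 * δ)..(β - 3 * δ), hδf δ x) -
        (∫ x in (α + 3 * δ)..(β - 3 * δ), hδf δ x * φ x) ^ 2) ≤
      (β - 3 * δ - (α + 3 * δ)) ^ 2 * ((∫ x in (α + 3 * δ)..(β - 3 * δ), hδf δ x * φ' x ^ 2) *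
        ∫ x in (α + 3 * δ)..(β - 3 * δ), hδf δ x) := by
    intro δ hδ hδ'
    obtain ⟨ck, kb, ke⟩ := hk δ hδ hδ'
    have c1 := av_cont (δ := δ) ck
    refine pwA' (h' := fun x => (av δ (k δ) (x + δ) - av δ (k δ) (x - δ)) / (2 * δ))
      (h'' := fun x => ((k δ (x + δ + δ) - k δ (x + δ - δ)) / (2 * δ) -
        (k δ (x - δ + δ) - k δ (x - δ - δ)) / (2 * δ)) / (2 * δ)) (by linarith)
      (fun x _ => av_deriv c1 x) ?_ ?_ ?_ ?_ hφ hφc
    · intro x _
      have h1 : HasDerivAt (fun z => av δ (k δ) (z + δ))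
          ((k δ (x + δ + δ) - k δ (x + δ - δ)) / (2 * δ)) x := by
        exact (av_deriv (δ := δ) ck (x + δ)).comp_add_const x δ
      have h2 : HasDerivAt (fun z => av δ (k δ) (z - δ))
          ((k δ (x - δ + δ) - k δ (x - δ - δ)) / (2 * δ)) x := by
        exact (av_deriv (δ := δ) ck (x - δ)).comp_sub_const x δ
      exact (h1.sub h2).div_const _
    · refine Continuous.continuousOn ?_
      fun_prop
    · intro x _
      have hmin : ∀ z ∈ Icc (x - 2 * δ) (x + 2 * δ), 0 < k δ z := fun z _ => (kb z).1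
      obtain ⟨z0, hz0, hz0m⟩ := isCompact_Icc.exists_isMinOn
        (nonempty_Icc.2 (by linarith : x - 2 * δ ≤ x + 2 * δ)) ck.continuousOn
      have h1 : k δ z0 ≤ av δ (av δ (k δ)) x := by
        refine av_ge hδ c1 fun y hy => av_ge hδ ck fun z hz => hz0m ?_
        have hy' := abs_le.1 hy
        have hz' := abs_le.1 hz
        exact ⟨by linarith, by linarith⟩
      exact (kb z0).1.trans_le h1
    · intro x hx
      have m1 : x - δ - δ ∈ Icc (α + δ) (β - δ) := ⟨by linarith [hx.1], by linarith [hx.2]⟩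
      have m2 : x ∈ Icc (α + δ) (β - δ) := ⟨by linarith [hx.1], by linarith [hx.2]⟩
      have m3 : x + δ + δ ∈ Icc (α + δ) (β - δ) := ⟨by linarith [hx.1], by linarith [hx.2]⟩
      have hsub : ∀ z ∈ Icc (α + δ) (β - δ), z ∈ Ioo α β := fun z hz =>
        ⟨by linarith [hz.1], by linarith [hz.2]⟩
      have e1 : x + δ - δ = x := by ring
      have e2 : x - δ + δ = x := by ring
      simp only [e1, e2]
      rw [ke _ m1, ke _ m2, ke _ m3]
      have h1 := conc_mid hconc (hsub _ m1) (hsub _ m3) (z := x) (by ring)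
      refine div_nonpos_of_nonpos_of_nonneg ?_ (by positivity)
      rw [← sub_div]
      refine div_nonpos_of_nonpos_of_nonneg ?_ (by positivity)
      linarith
  -- pointwise convergence
  have hpt : ∀ x ∈ Ioo α β, Tendsto (fun δ => hδf δ x) (𝓝[>] 0) (𝓝 (h x)) := by
    intro x hx
    rw [Metric.tendsto_nhds]
    intro ε hε
    have hcx : ContinuousAt h x := ch.continuousAt (isOpen_Ioo.mem_nhds hx)
    obtain ⟨η, hη, hηb⟩ := Metric.continuousAt_iff.1 hcx (ε / 2) (half_pos hε)
    have hx1 : 0 < x - α := by linarith [hx.1]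
    have hx2 : 0 < β - x := by linarith [hx.2]
    have hη0 : 0 < min (min (η / 3) ((x - α) / 4)) (min ((β - x) / 4) ((β - α) / 8)) := by
      refine lt_min (lt_min ?_ ?_) (lt_min ?_ ?_) <;> [positivity; positivity; positivity; linarith]
    filter_upwards [Ioo_mem_nhdsGT hη0] with δ hδ
    have hδ0 := hδ.1
    have b1 : δ < η / 3 := hδ.2.trans_le ((min_le_left _ _).trans (min_le_left _ _))
    have b2 : δ < (x - α) / 4 := hδ.2.trans_le ((min_le_left _ _).trans (min_le_right _ _))
    have b3 : δ < (β - x) / 4 := hδ.2.trans_le ((min_le_right _ _).trans (min_le_left _ _))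
    have b4 : δ < (β - α) / 8 := hδ.2.trans_le ((min_le_right _ _).trans (min_le_right _ _))
    obtain ⟨ck, kb, ke⟩ := hk δ hδ0 b4
    have c1 := av_cont (δ := δ) ck
    have hz : ∀ z, |z - x| ≤ 2 * δ → |k δ z - h x| ≤ ε / 2 := by
      intro z hz
      have hz' := abs_le.1 hz
      rw [ke z ⟨by linarith, by linarith⟩]
      refine le_of_lt ?_
      have := hηb (x := z) (by rw [Real.dist_eq]; linarith)
      rwa [Real.dist_eq] at this
    have l1 : h x - ε / 2 ≤ hδf δ x := by
      refine av_ge hδ0 c1 fun y hy => av_ge hδ0 ck fun z hzy => ?_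
      have := abs_le.1 (hz z (by
        have hy' := abs_le.1 hy
        have hz' := abs_le.1 hzy
        exact abs_le.2 ⟨by linarith, by linarith⟩))
      linarith
    have l2 : hδf δ x ≤ h x + ε / 2 := by
      refine av_le hδ0 c1 fun y hy => av_le hδ0 ck fun z hzy => ?_
      have := abs_le.1 (hz z (by
        have hy' := abs_le.1 hy
        have hz' := abs_le.1 hzy
        exact abs_le.2 ⟨by linarith, by linarith⟩))
      linarith
    rw [Real.dist_eq, abs_lt]
    constructor <;> linarith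
  -- convergence of the integrals
  have hconv : ∀ F : ℝ → ℝ, Continuous F → Tendsto
      (fun δ => ∫ x in (α + 3 * δ)..(β - 3 * δ), hδf δ x * F x) (𝓝[>] 0)
      (𝓝 (∫ x in Ioo α β, h x * F x)) := by
    intro F hF
    obtain ⟨B, hB⟩ := isCompact_Icc.exists_bound_of_continuousOn (s := Icc α β) hF.continuousOn
    have hB0 : 0 ≤ B := (norm_nonneg _).trans (hB α (left_mem_Icc.2 hαβ.le))
    rw [← integral_indicator measurableSet_Ioo]
    have hev : ∀ᶠ δ : ℝ in 𝓝[>] 0, 0 < δ ∧ δ < (β - α) / 8 := by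
      have : (0:ℝ) < (β - α) / 8 := by linarith
      filter_upwards [Ioo_mem_nhdsGT this] with δ hδ using hδ
    have heq : ∀ᶠ δ : ℝ in 𝓝[>] 0, ∫ x, (Ioc (α + 3 * δ) (β - 3 * δ)).indicator
        (fun x => hδf δ x * F x) x = ∫ x in (α + 3 * δ)..(β - 3 * δ), hδf δ x * F x := by
      filter_upwards [hev] with δ hδ
      rw [integral_indicator measurableSet_Ioc, intervalIntegral.integral_of_le (by linarith)]
    refine Tendsto.congr' heq ?_
    refine tendsto_integral_filter_of_dominated_convergence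
      ((Ioo α β).indicator fun _ => Hm * B) ?_ ?_ ?_ ?_
    · filter_upwards [hev] with δ hδ
      have c2 : Continuous (hδf δ) := av_cont (av_cont (hk δ hδ.1 hδ.2).1)
      exact ((c2.mul hF).aestronglyMeasurable).indicator measurableSet_Ioc
    · filter_upwards [hev] with δ hδ
      refine Eventually.of_forall fun x => ?_
      by_cases hx : x ∈ Ioc (α + 3 * δ) (β - 3 * δ)
      · have hx' : x ∈ Ioo α β := ⟨by linarith [hx.1], by linarith [hx.2]⟩
        rw [indicator_of_mem hx, indicator_of_mem hx', norm_mul]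
        obtain ⟨ck, kb, ke⟩ := hk δ hδ.1 hδ.2
        have c1 := av_cont (δ := δ) ck
        have l1 : 0 ≤ hδf δ x :=
          av_ge hδ.1 c1 fun y _ => av_ge hδ.1 ck fun z _ => (kb z).1.le
        have l2 : hδf δ x ≤ Hm :=
          av_le hδ.1 c1 fun y _ => av_le hδ.1 ck fun z _ => (kb z).2
        rw [Real.norm_eq_abs, abs_of_nonneg l1]
        exact mul_le_mul l2 (hB x ⟨hx'.1.le, hx'.2.le⟩) (norm_nonneg _) hHm0.le
      · rw [indicator_of_notMem hx, norm_zero]
        exact indicator_nonneg (fun _ _ => by positivity) x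
    · rw [integrable_indicator_iff measurableSet_Ioo]
      exact integrableOn_const (by simp)
    · refine Eventually.of_forall fun x => ?_
      by_cases hx : x ∈ Ioo α β
      · rw [indicator_of_mem hx]
        have h1 : ∀ᶠ δ : ℝ in 𝓝[>] 0, x ∈ Ioc (α + 3 * δ) (β - 3 * δ) := by
          have hx1 : 0 < x - α := by linarith [hx.1]
          have hx2 : 0 < β - x := by linarith [hx.2]
          have : 0 < min ((x - α) / 4) ((β - x) / 4) := lt_min (by positivity) (by positivity)
          filter_upwards [Ioo_mem_nhdsGT this] with δ hδ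
          have b2 : δ < (x - α) / 4 := hδ.2.trans_le (min_le_left _ _)
          have b3 : δ < (β - x) / 4 := hδ.2.trans_le (min_le_right _ _)
          exact ⟨by linarith [hδ.1], by linarith [hδ.1]⟩
        refine Tendsto.congr' ?_ ((hpt x hx).mul_const (F x))
        filter_upwards [h1] with δ hδ
        rw [indicator_of_mem hδ]
      · rw [indicator_of_notMem hx]
        refine tendsto_const_nhds.congr' ?_
        filter_upwards [hev] with δ hδ
        rw [indicator_of_notMem]
        intro hx2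
        exact hx ⟨by linarith [hx2.1, hδ.1], by linarith [hx2.2, hδ.1]⟩
  have t0 := hconv (fun _ => 1) continuous_const
  have t1 := hconv φ cφ
  have t2 := hconv (fun x => φ x ^ 2) (cφ.pow 2)
  have t3 := hconv (fun x => φ' x ^ 2) (hφc.pow 2)
  simp only [mul_one] at t0
  have tL : Tendsto (fun δ : ℝ => (β - 3 * δ - (α + 3 * δ)) ^ 2) (𝓝[>] 0) (𝓝 ((β - α) ^ 2)) := by
    have h1 : Continuous fun δ : ℝ => (β - 3 * δ - (α + 3 * δ)) ^ 2 := by fun_prop
    have h2 := (h1.tendsto 0).mono_left (nhdsWithin_le_nhds (s := Ioi 0))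
    simpa using h2
  refine le_of_tendsto_of_tendsto (((t2.mul t0).sub (t1.pow 2)).const_mul (π ^ 2))
    (tL.mul (t3.mul t0)) ?_
  have : (0:ℝ) < (β - α) / 8 := by linarith
  filter_upwards [Ioo_mem_nhdsGT this] with δ hδ
  exact smooth δ hδ.1 hδ.2

end Pool.Agent.Zk69
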