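import Pool.Agent.Zk69.PW2
import Pool.Agent.R225.NM.Exist
import Pool.Agent.R225.NM.Fin

set_option autoImplicit false

/-!
# Slices of planar convex domains
-/

open MeasureTheory Set Filter Topology WithLp
open scoped Real

namespace Pool.Agent.Zk69

open Pool.Agent.R225.NM

abbrev E2 := EuclideanSpace ℝ (Fin 2)

theorem open_interval {T : Set ℝ} (ho : IsOpen T) (hc : T.OrdConnected)
    (hb : Bornology.IsBounded T) (hn : T.Nonempty) : ∃ f g : ℝ, f < g ∧ T = Ioo f g := by
  obtain ⟨R, hR⟩ := isBounded_iff_forall_norm_le.1 hb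
  have hbb : BddBelow T := ⟨-R, fun x hx => (abs_le.1 (hR x hx)).1⟩
  have hba : BddAbove T := ⟨R, fun x hx => (abs_le.1 (hR x hx)).2⟩
  have key : T = Ioo (sInf T) (sSup T) := by
    ext x
    constructor
    · intro hx
      obtain ⟨r, hr, hball⟩ := Metric.isOpen_iff.1 ho x hx
      have h1 : x - r / 2 ∈ T := hball (by
        rw [Metric.mem_ball, Real.dist_eq, abs_lt]
        constructor <;> linarith)
      have h2 : x + r / 2 ∈ T := hball (by
        rw [Metric.mem_ball, Real.dist_eq, abs_lt]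
        constructor <;> linarith)
      exact ⟨(csInf_le hbb h1).trans_lt (by linarith), lt_of_lt_of_le (by linarith) (le_csSup hba h2)⟩
    · intro hx
      obtain ⟨s, hs, hsx⟩ := exists_lt_of_csInf_lt hn hx.1
      obtain ⟨t, ht, hxt⟩ := exists_lt_of_lt_csSup hn hx.2
      exact hc.out hs ht ⟨hsx.le, hxt.le⟩
  refine ⟨sInf T, sSup T, ?_, key⟩
  obtain ⟨x, hx⟩ := hn
  rw [key] at hx
  exact hx.1.trans hx.2

/-- the point with coordinates `x`, `y` -/
noncomputable def mk (x y : ℝ) : E2 := !₂[x, y]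

@[simp] theorem mk_zero (x y : ℝ) : mk x y 0 = x := by simp [mk]
@[simp] theorem mk_one (x y : ℝ) : mk x y 1 = y := by simp [mk]

theorem mk_eta (p : E2) : mk (p 0) (p 1) = p := by
  ext i
  fin_cases i <;> simp [mk]

theorem mk_cont : Continuous fun z : ℝ × ℝ => mk z.1 z.2 := by
  unfold mk
  refine (PiLp.continuous_toLp 2 _).comp ?_
  refine continuous_pi fun i => ?_
  fin_cases i
  · exact continuous_fst
  · exact continuous_snd

theorem mk_comb (a b x y x' y' : ℝ) : a • mk x y + b • mk x' y' = mk (a * x + b * x') (a * y + b * y') := by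
  ext i
  fin_cases i <;> simp [mk]

theorem dist_mk (x y x' y' : ℝ) : dist (mk x y) (mk x' y') = √((x - x') ^ 2 + (y - y') ^ 2) := by
  rw [EuclideanSpace.dist_eq]
  simp [mk, Real.dist_eq, sq_abs]

theorem abs_coord_le (p : E2) (i : Fin 2) : |p i| ≤ ‖p‖ := by
  have := PiLp.norm_apply_le p i
  simpa using this

/-- the slice -/
def sl (Ω : Set E2) (x : ℝ) : Set ℝ := {y | mk x y ∈ Ω}

/-- its length -/
noncomputable def hl (Ω : Set E2) (x : ℝ) : ℝ := volume.real (sl Ω x)

/-- the projection -/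
def prj (Ω : Set E2) : Set ℝ := {x | ∃ y, mk x y ∈ Ω}

theorem sl_open {Ω : Set E2} (ho : IsOpen Ω) (x : ℝ) : IsOpen (sl Ω x) := by
  have : Continuous fun y : ℝ => mk x y := mk_cont.comp (continuous_const.prodMk continuous_id)
  exact ho.preimage this

theorem sl_bdd {Ω : Set E2} (hb : Bornology.IsBounded Ω) (x : ℝ) :
    Bornology.IsBounded (sl Ω x) := by
  obtain ⟨R, hR⟩ := isBounded_iff_forall_norm_le.1 hb
  refine isBounded_iff_forall_norm_le.2 ⟨R, fun y hy => ?_⟩
  have h1 := hR _ hy
  have h2 := abs_coord_le (mk x y) 1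
  rw [mk_one] at h2
  exact h2.trans h1

theorem sl_conv {Ω : Set E2} (hc : Convex ℝ Ω) (x : ℝ) : Convex ℝ (sl Ω x) := by
  intro y hy z hz a b ha hb hab
  have := hc hy hz ha hb hab
  rw [mk_comb] at this
  have e : a * x + b * x = x := by rw [← add_mul, hab, one_mul]
  rw [e] at this
  exact this

theorem prj_open {Ω : Set E2} (ho : IsOpen Ω) : IsOpen (prj Ω) := by
  rw [isOpen_iff_mem_nhds]
  rintro x ⟨y, hy⟩
  have : Continuous fun z : ℝ => mk z y := mk_cont.comp (continuous_id.prodMk continuous_const)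
  filter_upwards [(ho.preimage this).mem_nhds hy] with z hz
  exact ⟨y, hz⟩

theorem prj_conv {Ω : Set E2} (hc : Convex ℝ Ω) : Convex ℝ (prj Ω) := by
  rintro x ⟨y, hy⟩ x' ⟨y', hy'⟩ a b ha hb hab
  have := hc hy hy' ha hb hab
  rw [mk_comb] at this
  exact ⟨_, this⟩

theorem prj_bdd {Ω : Set E2} (hb : Bornology.IsBounded Ω) : Bornology.IsBounded (prj Ω) := by
  obtain ⟨R, hR⟩ := isBounded_iff_forall_norm_le.1 hb
  refine isBounded_iff_forall_norm_le.2 ⟨R, ?_⟩
  rintro x ⟨y, hy⟩
  have h1 := hR _ hy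
  have h2 := abs_coord_le (mk x y) 0
  rw [mk_zero] at h2
  exact h2.trans h1

/-- coordinates as a measurable equivalence -/
noncomputable def em : ℝ × ℝ ≃ᵐ E2 :=
  (MeasurableEquiv.finTwoArrow (α := ℝ)).symm.trans (MeasurableEquiv.toLp 2 (Fin 2 → ℝ))

theorem em_apply (z : ℝ × ℝ) : em z = mk z.1 z.2 := rfl

theorem em_mp : MeasurePreserving (em : ℝ × ℝ → E2) volume volume :=
  (PiLp.volume_preserving_toLp (Fin 2)).comp (volume_preserving_finTwoArrow ℝ).symm

theorem set_em (Ω : Set E2) (G : E2 → ℝ) :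
    ∫ z in em ⁻¹' Ω, G (mk z.1 z.2) = ∫ p in Ω, G p :=
  em_mp.setIntegral_preimage_emb em.measurableEmbedding G Ω

/-- the structure of the slices of a planar convex domain -/
theorem slice {Ω : Set E2} (h : IsConvexDomain Ω) : ∃ α β : ℝ, α < β ∧ prj Ω = Ioo α β ∧
    ConcaveOn ℝ (Ioo α β) (hl Ω) ∧ (∀ x ∈ Ioo α β, 0 < hl Ω x) ∧
    ∀ F : ℝ → ℝ, Continuous F → ∫ p in Ω, F (p 0) = ∫ x in Ioo α β, hl Ω x * F x := by
  obtain ⟨p0, hp0⟩ := h.nonempty
  obtain ⟨α, β, hαβ, hp⟩ := open_interval (prj_open h.isOpen) (prj_conv h.convex).ordConnected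
    (prj_bdd h.isBounded) ⟨p0 0, p0 1, by rwa [mk_eta]⟩
  have hs : ∀ x ∈ Ioo α β, ∃ f g : ℝ, f < g ∧ sl Ω x = Ioo f g := by
    intro x hx
    rw [← hp] at hx
    obtain ⟨y, hy⟩ := hx
    exact open_interval (sl_open h.isOpen x) (sl_conv h.convex x).ordConnected
      (sl_bdd h.isBounded x) ⟨y, hy⟩
  have hlI : ∀ x, ∀ f g : ℝ, f < g → sl Ω x = Ioo f g → hl Ω x = g - f := by
    intro x f g hfg he
    unfold hl
    rw [he]
    rw [Measure.real, Real.volume_Ioo, ENNReal.toReal_ofReal (by linarith)]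
  refine ⟨α, β, hαβ, hp, ⟨convex_Ioo α β, ?_⟩, ?_, ?_⟩
  · intro x hx x' hx' a b ha hb hab
    obtain ⟨f, g, hfg, he⟩ := hs x hx
    obtain ⟨f', g', hfg', he'⟩ := hs x' hx'
    rw [hlI x f g hfg he, hlI x' f' g' hfg' he']
    simp only [smul_eq_mul]
    have hlt : a * f + b * f' < a * g + b * g' := by
      rcases eq_or_lt_of_le ha with h0 | h0
      · have hb1 : b = 1 := by linarith
        rw [← h0, hb1]
        linarith
      · have h1 : a * f < a * g := mul_lt_mul_of_pos_left hfg h0
        have h2 : b * f' ≤ b * g' := mul_le_mul_of_nonneg_left hfg'.le hb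
        linarith
    have hsub : Ioo (a * f + b * f') (a * g + b * g') ⊆ sl Ω (a * x + b * x') := by
      intro y hy
      set w : ℝ := (a * g + b * g') - (a * f + b * f') with hw
      have hw0 : 0 < w := by rw [hw]; linarith
      set θ : ℝ := (y - (a * f + b * f')) / w with hθ
      have hθ0 : 0 < θ := div_pos (by linarith [hy.1]) hw0
      have hθ1 : θ < 1 := by
        rw [hθ, div_lt_one hw0, hw]
        linarith [hy.2]
      have m1 : f + θ * (g - f) ∈ sl Ω x := by
        rw [he]
        have h1 : 0 < θ * (g - f) := mul_pos hθ0 (by linarith)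
        have h2 : θ * (g - f) < g - f := by nlinarith
        exact ⟨by linarith, by linarith⟩
      have m2 : f' + θ * (g' - f') ∈ sl Ω x' := by
        rw [he']
        have h1 : 0 < θ * (g' - f') := mul_pos hθ0 (by linarith)
        have h2 : θ * (g' - f') < g' - f' := by nlinarith
        exact ⟨by linarith, by linarith⟩
      have h3 := h.convex m1 m2 ha hb hab
      rw [mk_comb] at h3
      have e : a * (f + θ * (g - f)) + b * (f' + θ * (g' - f')) = y := by
        have : θ * w = y - (a * f + b * f') := by rw [hθ]; field_simp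
        rw [hw] at this
        linarith
      rw [e] at h3
      exact h3
    have hfin : volume (sl Ω (a * x + b * x')) ≠ ⊤ := (sl_bdd h.isBounded _).measure_lt_top.ne
    have h4 : volume.real (Ioo (a * f + b * f') (a * g + b * g')) ≤
        volume.real (sl Ω (a * x + b * x')) := measureReal_mono hsub hfin
    rw [Measure.real, Real.volume_Ioo, ENNReal.toReal_ofReal (by linarith)] at h4
    show a * (g - f) + b * (g' - f') ≤ hl Ω (a * x + b * x')
    unfold hl
    linarith
  · intro x hx
    obtain ⟨f, g, hfg, he⟩ := hs x hx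
    rw [hlI x f g hfg he]
    linarith
  · intro F hF
    rw [← set_em Ω (fun p => F (p 0))]
    simp only [mk_zero]
    have hmA : MeasurableSet (em ⁻¹' Ω) := em.measurable h.isOpen.measurableSet
    rw [← integral_indicator hmA]
    have hint : Integrable ((em ⁻¹' Ω).indicator fun z : ℝ × ℝ => F z.1) (volume.prod volume) := by
      rw [integrable_indicator_iff hmA]
      obtain ⟨R, hR⟩ := isBounded_iff_forall_norm_le.1 h.isBounded
      have hsub : em ⁻¹' Ω ⊆ Icc (-R) R ×ˢ Icc (-R) R := by
        intro z hz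
        have h1 := hR _ hz
        rw [em_apply] at h1
        have h2 := abs_coord_le (mk z.1 z.2) 0
        have h3 := abs_coord_le (mk z.1 z.2) 1
        rw [mk_zero] at h2
        rw [mk_one] at h3
        exact ⟨abs_le.1 (h2.trans h1), abs_le.1 (h3.trans h1)⟩
      refine IntegrableOn.mono_set ?_ hsub
      exact (hF.comp continuous_fst).continuousOn.integrableOn_compact
        (isCompact_Icc.prod isCompact_Icc)
    have h1 : ∫ z : ℝ × ℝ, (em ⁻¹' Ω).indicator (fun z : ℝ × ℝ => F z.1) z =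
        ∫ x : ℝ, ∫ y : ℝ, (em ⁻¹' Ω).indicator (fun z : ℝ × ℝ => F z.1) (x, y) := by
      rw [Measure.volume_eq_prod, integral_prod _ hint]
    rw [h1]
    have h2 : ∀ x : ℝ, ∫ y : ℝ, (em ⁻¹' Ω).indicator (fun z : ℝ × ℝ => F z.1) (x, y) =
        hl Ω x * F x := by
      intro x
      have e : (fun y : ℝ => (em ⁻¹' Ω).indicator (fun z : ℝ × ℝ => F z.1) (x, y)) =
          (sl Ω x).indicator fun _ => F x := by
        funext y
        by_cases hy : mk x y ∈ Ω
        · rw [indicator_of_mem (show (x, y) ∈ em ⁻¹' Ω from hy),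
            indicator_of_mem (show y ∈ sl Ω x from hy)]
        · rw [indicator_of_notMem (show (x, y) ∉ em ⁻¹' Ω from hy),
            indicator_of_notMem (show y ∉ sl Ω x from hy)]
      rw [e, integral_indicator (sl_open h.isOpen x).measurableSet, setIntegral_const, smul_eq_mul]
      rfl
    simp only [h2]
    symm
    refine setIntegral_eq_integral_of_forall_compl_eq_zero fun x hx => ?_
    have : sl Ω x = ∅ := by
      rw [← hp] at hx
      ext y
      simp only [mem_empty_iff_false, iff_false]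
      intro hy
      exact hx ⟨y, hy⟩
    unfold hl
    rw [this]
    simp

end Pool.Agent.Zk69
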