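import Pool.Agent.Zk69.PW3

set_option autoImplicit false

/-!
# The inequality of Payne and Weinberger for thin planar convex domains, with an error term
-/

open MeasureTheory Set Filter Topology WithLp Metric
open scoped Real

namespace Pool.Agent.Zk69

open Pool.Agent.R225.NM

/-- first basis vector -/
noncomputable def e0 : E2 := EuclideanSpace.single 0 1

theorem norm_e0 : ‖e0‖ = 1 := by simp [e0]

theorem mk_line (x b : ℝ) : mk x b = mk 0 b + x • e0 := by
  ext i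
  fin_cases i <;> simp [mk, e0]

theorem deriv_line {u : E2 → ℝ} (hu : ContDiff ℝ 1 u) (x b : ℝ) :
    HasDerivAt (fun x => u (mk x b)) (fderiv ℝ u (mk x b) e0) x := by
  have h1 : HasDerivAt (fun x => mk x b) e0 x := by
    have : (fun x => mk x b) = fun x => mk 0 b + x • e0 := by
      funext x
      exact mk_line x b
    rw [this]
    simpa using ((hasDerivAt_id x).smul_const e0).const_add (mk 0 b)
  exact (hu.differentiable one_ne_zero _).hasFDerivAt.comp_hasDerivAt x h1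

theorem len_le {Ω : Set E2} {α β D : ℝ} (hp : prj Ω = Ioo α β) (hαβ : α < β)
    (hD : ∀ p ∈ Ω, ∀ q ∈ Ω, dist p q ≤ D) : β - α ≤ D := by
  refine le_of_forall_pos_le_add fun t ht => ?_
  set s : ℝ := min (t / 2) ((β - α) / 3) with hs
  have hs0 : 0 < s := lt_min (by linarith) (by linarith)
  have hs1 : s ≤ t / 2 := min_le_left _ _
  have hs2 : s ≤ (β - α) / 3 := min_le_right _ _
  have m1 : α + s ∈ prj Ω := by
    rw [hp]
    exact ⟨by linarith, by linarith⟩
  have m2 : β - s ∈ prj Ω := by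
    rw [hp]
    exact ⟨by linarith, by linarith⟩
  obtain ⟨y, hy⟩ := m1
  obtain ⟨z, hz⟩ := m2
  have h1 := hD _ hz _ hy
  rw [dist_mk] at h1
  have h2 : β - s - (α + s) ≤ √((β - s - (α + s)) ^ 2 + (z - y) ^ 2) := by
    refine Real.le_sqrt_of_sq_le ?_
    nlinarith [sq_nonneg (z - y)]
  linarith

theorem thin {u : E2 → ℝ} (hu : ContDiff ℝ 1 u) {R D δ M b : ℝ} (hD : 0 < D)
    (hδ : 0 < δ) (hM0 : 0 ≤ M) (hM : M * D ^ 2 ≤ π ^ 2) :
    ∃ ε : ℝ, 0 < ε ∧ ∀ Ω : Set E2, IsConvexDomain Ω → Ω ⊆ closedBall 0 R →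
      (∀ p ∈ Ω, ∀ q ∈ Ω, dist p q ≤ D) → (∀ p ∈ Ω, |p 1 - b| < ε) → ∫ x in Ω, u x = 0 →
      M * ∫ x in Ω, u x ^ 2 < (∫ x in Ω, ‖fderiv ℝ u x‖ ^ 2) + δ * volume.real Ω := by
  have cu := hu.continuous
  have cdu : Continuous fun p => fderiv ℝ u p e0 :=
    (hu.continuous_fderiv one_ne_zero).clm_apply continuous_const
  -- the choice of `η`
  set c : ℝ := M + 1 + π ^ 2 / D ^ 2 with hc
  have hc0 : 0 < c := by
    have : 0 < π ^ 2 / D ^ 2 := by positivity
    linarith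
  set η : ℝ := min 1 (δ / (2 * c)) with hη
  have hη0 : 0 < η := lt_min one_pos (by positivity)
  have hη1 : η ≤ 1 := min_le_left _ _
  have hη2 : η * c < δ := by
    have h1 : η ≤ δ / (2 * c) := min_le_right _ _
    have h2 : η * c ≤ δ / (2 * c) * c := mul_le_mul_of_nonneg_right h1 hc0.le
    have h3 : δ / (2 * c) * c = δ / 2 := by field_simp
    linarith
  set Φ : E2 → ℝ × ℝ × ℝ := fun p => (u p, u p ^ 2, (fderiv ℝ u p e0) ^ 2) with hΦ
  have cΦ : Continuous Φ := cu.prodMk ((cu.pow 2).prodMk (cdu.pow 2))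
  have huc := (isCompact_closedBall (0 : E2) (R + 1)).uniformContinuousOn_of_continuous
    cΦ.continuousOn
  obtain ⟨ε1, hε1, hb1⟩ := Metric.uniformContinuousOn_iff.1 huc η hη0
  refine ⟨min ε1 1, lt_min hε1 one_pos, fun Ω hΩ hΩR hΩD hthin h0 => ?_⟩
  obtain ⟨α, β, hαβ, hp, hconc, hpos, hF⟩ := slice hΩ
  -- comparison on `Ω`
  have hcmp : ∀ p ∈ Ω, |u p - u (mk (p 0) b)| ≤ η ∧ |u p ^ 2 - u (mk (p 0) b) ^ 2| ≤ η ∧
      |(fderiv ℝ u p e0) ^ 2 - (fderiv ℝ u (mk (p 0) b) e0) ^ 2| ≤ η := by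
    intro p hp
    have h1 := hthin p hp
    have h2 : dist p (mk (p 0) b) = |p 1 - b| := by
      conv_lhs => rw [← mk_eta p]
      rw [mk_zero, dist_mk, sub_self, zero_pow two_ne_zero, zero_add, Real.sqrt_sq_eq_abs]
    have h3 : dist p (mk (p 0) b) < ε1 := by
      rw [h2]
      exact h1.trans_le (min_le_left _ _)
    have h4 : dist p (mk (p 0) b) < 1 := by
      rw [h2]
      exact h1.trans_le (min_le_right _ _)
    have m1 : p ∈ closedBall (0 : E2) (R + 1) := closedBall_subset_closedBall (by linarith) (hΩR hp)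
    have m2 : mk (p 0) b ∈ closedBall (0 : E2) (R + 1) := by
      have h5 := mem_closedBall.1 (hΩR hp)
      rw [mem_closedBall]
      have := dist_triangle_left (mk (p 0) b) 0 p
      linarith
    have h5 := hb1 p m1 (mk (p 0) b) m2 h3
    simp only [hΦ, Prod.dist_eq, max_lt_iff, Real.dist_eq] at h5
    exact ⟨h5.1.le, h5.2.1.le, h5.2.2.le⟩
  set φ : ℝ → ℝ := fun x => u (mk x b) with hφ
  set φ' : ℝ → ℝ := fun x => fderiv ℝ u (mk x b) e0 with hφ'
  have dφ : ∀ x, HasDerivAt φ (φ' x) x := fun x => deriv_line hu x b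
  have cmb : Continuous fun x : ℝ => mk x b := mk_cont.comp (continuous_id.prodMk continuous_const)
  have cφ : Continuous φ := cu.comp cmb
  have cφ' : Continuous φ' := cdu.comp cmb
  have hpw := pwB hαβ hconc hpos dφ cφ'
  have hA : ∫ x in Ioo α β, hl Ω x = volume.real Ω := by
    have := hF (fun _ => 1) continuous_const
    simp only [mul_one, setIntegral_const, smul_eq_mul] at this
    exact this.symm
  rw [hA, ← hF φ cφ, ← hF (fun x => φ x ^ 2) (cφ.pow 2), ← hF (fun x => φ' x ^ 2) (cφ'.pow 2)] at hpw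
  set A : ℝ := volume.real Ω with hAd
  have hA0 : 0 < A := by
    rw [hAd, Measure.real, ENNReal.toReal_pos_iff]
    exact ⟨hΩ.isOpen.measure_pos _ hΩ.nonempty, hΩ.isBounded.measure_lt_top⟩
  have hb := hΩ.isBounded
  have c0 : Continuous fun p : E2 => p 0 := by fun_prop
  have hcmpI : ∀ G H : E2 → ℝ, Continuous G → Continuous H → (∀ p ∈ Ω, |G p - H p| ≤ η) →
      |(∫ p in Ω, G p) - ∫ p in Ω, H p| ≤ η * A := by
    intro G H hG hH hGH
    rw [← integral_sub (int_bdd hb hG) (int_bdd hb hH)]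
    have := norm_setIntegral_le_of_norm_le_const (μ := volume) (s := Ω) (C := η)
      (f := fun p => G p - H p) hb.measure_lt_top (fun p hp => hGH p hp)
    exact this
  have k1 := hcmpI u (fun p => φ (p 0)) cu (cφ.comp c0) fun p hp => (hcmp p hp).1
  have k2 := hcmpI (fun p => u p ^ 2) (fun p => φ (p 0) ^ 2) (cu.pow 2) ((cφ.comp c0).pow 2)
    fun p hp => (hcmp p hp).2.1
  have k3 := hcmpI (fun p => (fderiv ℝ u p e0) ^ 2) (fun p => φ' (p 0) ^ 2) (cdu.pow 2)
    ((cφ'.comp c0).pow 2) fun p hp => (hcmp p hp).2.2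
  rw [h0, zero_sub, abs_neg] at k1
  set J : ℝ := ∫ p in Ω, φ (p 0) with hJ
  set X : ℝ := ∫ p in Ω, φ (p 0) ^ 2 with hX
  set Y : ℝ := ∫ p in Ω, φ' (p 0) ^ 2 with hY
  have hX0 : 0 ≤ X := integral_nonneg fun _ => sq_nonneg _
  have hY0 : 0 ≤ Y := integral_nonneg fun _ => sq_nonneg _
  have hgrad : ∫ p in Ω, (fderiv ℝ u p e0) ^ 2 ≤ ∫ x in Ω, ‖fderiv ℝ u x‖ ^ 2 := by
    refine setIntegral_mono (int_bdd hb (cdu.pow 2))
      (int_bdd hb ((hu.continuous_fderiv one_ne_zero).norm.pow 2)) fun p => ?_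
    have h1 : |fderiv ℝ u p e0| ≤ ‖fderiv ℝ u p‖ := by
      have := (fderiv ℝ u p).le_opNorm e0
      rwa [norm_e0, mul_one, Real.norm_eq_abs] at this
    show (fderiv ℝ u p e0) ^ 2 ≤ _
    rw [← sq_abs]
    exact pow_le_pow_left₀ (abs_nonneg _) h1 2
  have hlen : β - α ≤ D := len_le hp hαβ hΩD
  have hlen0 : 0 ≤ β - α := by linarith
  -- arithmetic
  have h1 : J ^ 2 ≤ (η * A) ^ 2 := by
    rw [← sq_abs J]
    exact pow_le_pow_left₀ (abs_nonneg _) k1 2
  have h2 : π ^ 2 * (X * A - (η * A) ^ 2) ≤ D ^ 2 * (Y * A) := by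
    calc π ^ 2 * (X * A - (η * A) ^ 2) ≤ π ^ 2 * (X * A - J ^ 2) := by
          have : X * A - (η * A) ^ 2 ≤ X * A - J ^ 2 := by linarith
          exact mul_le_mul_of_nonneg_left this (by positivity)
      _ ≤ (β - α) ^ 2 * (Y * A) := hpw
      _ ≤ D ^ 2 * (Y * A) := by
          have : (β - α) ^ 2 ≤ D ^ 2 := pow_le_pow_left₀ hlen0 hlen 2
          exact mul_le_mul_of_nonneg_right this (by positivity)
  have h3 : π ^ 2 / D ^ 2 * (X - η ^ 2 * A) ≤ Y := by
    have h4 : A * (π ^ 2 * (X - η ^ 2 * A)) ≤ A * (D ^ 2 * Y) := by nlinarith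
    have h5 := le_of_mul_le_mul_left h4 hA0
    rw [div_mul_eq_mul_div, div_le_iff₀ (by positivity)]
    linarith
  set κ : ℝ := π ^ 2 / D ^ 2 with hκ
  have hκ0 : 0 < κ := by rw [hκ]; positivity
  have hMκ : M ≤ κ := by
    rw [hκ, le_div_iff₀ (by positivity)]
    exact hM
  have h4 := (abs_le.1 k2).2
  have h5 := (abs_le.1 k3).1
  have h6 : M * ∫ x in Ω, u x ^ 2 ≤ M * (X + η * A) := mul_le_mul_of_nonneg_left (by linarith) hM0
  have h7 : M * X ≤ κ * X := mul_le_mul_of_nonneg_right hMκ hX0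
  have h8 : κ * (η ^ 2 * A) ≤ κ * (η * A) := by
    have : η ^ 2 ≤ η := by nlinarith
    have h9 : η ^ 2 * A ≤ η * A := mul_le_mul_of_nonneg_right this hA0.le
    exact mul_le_mul_of_nonneg_left h9 hκ0.le
  have h9 : η * c * A < δ * A := mul_lt_mul_of_pos_right hη2 hA0
  rw [hc] at h9
  nlinarith

end Pool.Agent.Zk69
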